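import Mathlib

set_option autoImplicit false
open FirstOrder FirstOrder.Language

/-!
# A countably categorical weakly o-minimal structure with a convex expansion that is not
countably categorical

The structure is a tower of ordered ultrametric spaces: a countable linear order `Q` whose
points have splitting levels `v x y` that are again points of `Q`.  The relation `R k` compares
iterated levels.  `n` points have at most `n - 1` levels, so there are finitely many types.
A suitable cut `U` assigns to each of its points a further level `i x` in `U`, and comparing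
`v x y` with `i y`, and then iterating, codes arbitrary infinite sequences of bits.
-/

namespace Pool.Agent.Results.MP_b29b59_lc.ConvexExpansion

/-- Weak o-minimality: every subset definable with parameters is a finite union of convex
sets. -/
def WeaklyOMinimal (L : FirstOrder.Language.{0, 0}) (M : Type) [LinearOrder M] [L.Structure M] :
    Prop :=
  ∀ S : Set M, (Set.univ : Set M).Definable₁ L S →
    ∃ C : Set (Set M), C.Finite ∧ (∀ c ∈ C, c.OrdConnected) ∧ S = ⋃₀ C

/-- Countable categoricity of the complete theory of a structure. -/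
def OmegaCategorical (L : FirstOrder.Language.{0, 0}) (M : Type) [L.Structure M] : Prop :=
  Cardinal.Categorical.{0, 0, 0} Cardinal.aleph0 (L.completeTheory M)

/-- The relation symbols of `LP`: one unary symbol. -/
inductive PRel : ℕ → Type
  | U : PRel 1

/-- The language with one unary predicate symbol and nothing else. -/
def LP : FirstOrder.Language.{0, 0} := ⟨fun _ => Empty, PRel⟩

instance : LP.IsRelational := fun _ => inferInstanceAs (IsEmpty Empty)

/-- The unary predicate symbol interpreted as the set `U`. -/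
@[reducible] def predStr {M : Type} (U : Set M) : LP.Structure M where
  funMap := fun f => f.elim
  RelMap := fun {n} r xs => match n, r, xs with
    | _, PRel.U, xs => xs 0 ∈ U

/-- The expansion `(M, U)` of a structure by one new unary predicate interpreted as `U`. -/
@[reducible] def expand (L : FirstOrder.Language.{0, 0}) {M : Type} [L.Structure M] (U : Set M) :
    (L.sum LP).Structure M :=
  letI := predStr U
  Language.sumStructure L LP M

/-- An ordered set valued in itself: `v x y` is the splitting level of `x` and `y`. -/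
structure Tower (Q : Type) [LinearOrder Q] where
  v : Q → Q → Q
  symm : ∀ x y, v x y = v y x
  cut : ∀ x y z, x < y → y < z → v x z = min (v x y) (v y z)
  ext : ∀ (h : Q) (L R : Finset Q),
    (∀ b ∈ L ∪ R, ∀ c ∈ L ∪ R, b ≠ c → h ≤ v b c) →
    (∀ b ∈ L, ∀ c ∈ R, b < c ∧ v b c = h) →
    ∃ y, (∀ b ∈ L, b < y ∧ v b y = h) ∧ (∀ c ∈ R, y < c ∧ v y c = h)

namespace Tower

variable {Q : Type} [LinearOrder Q] (T : Tower Q)

/-- ultrametric inequality -/
theorem ultra (a b c : Q) (hab : a ≠ b) (hbc : b ≠ c) (hac : a ≠ c) :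
    min (T.v a b) (T.v b c) ≤ T.v a c := by
  rcases lt_or_gt_of_ne hab with h1 | h1 <;> rcases lt_or_gt_of_ne hbc with h2 | h2 <;>
    rcases lt_or_gt_of_ne hac with h3 | h3
  · rw [T.cut a b c h1 h2]
  · exact absurd (h1.trans h2) (not_lt.2 h3.le)
  · -- a < c < b
    have := T.cut a c b h3 h2
    rw [this]
    exact (min_le_left _ _).trans (min_le_left _ _)
  · -- c < a < b
    have := T.cut c a b h3 h1
    rw [T.symm b c, this, T.symm a c]
    exact (min_le_right _ _).trans (min_le_left _ _)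
  · -- b < a, b < c, a < c : b < a < c
    have := T.cut b a c h1 h3
    rw [this]
    exact (min_le_right _ _).trans (min_le_right _ _)
  · -- b < c < a
    have := T.cut b c a h2 h3
    rw [T.symm a b, this, T.symm a c]
    exact (min_le_left _ _).trans (min_le_right _ _)
  · exact absurd (h2.trans h1) (not_lt.2 h3.le)
  · -- c < b < a
    have := T.cut c b a h2 h1
    rw [T.symm a c, this, T.symm a b, T.symm b c, min_comm]

theorem sep (x a d : Q) (hxa : x ≠ a) (hxd : x ≠ d) (had : a ≠ d)
    (h : T.v x d < T.v x a) : T.v a d = T.v x d ∧ (d < a ↔ d < x) := by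
  constructor
  · apply le_antisymm
    · by_contra hc
      push Not at hc
      have := T.ultra x a d hxa had hxd
      exact absurd this (not_le.2 (lt_min h hc))
    · have := T.ultra a x d hxa.symm hxd had
      rw [T.symm a x] at this
      rwa [min_eq_right h.le] at this
  · constructor
    · intro h1
      by_contra h2
      have h3 : x < d := lt_of_le_of_ne (not_lt.1 h2) hxd
      have := T.cut x d a h3 h1
      rw [this] at h
      exact absurd (min_le_left _ _) (not_le.2 h)
    · intro h1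
      by_contra h2
      have h3 : a < d := lt_of_le_of_ne (not_lt.1 h2) had
      have := T.cut a d x h3 h1
      rw [T.symm a x] at this
      rw [this, T.symm d x] at h
      exact absurd (min_le_right _ _) (not_le.2 h)

/-- The levels of a finite set. -/
def V (X : Finset Q) : Finset Q := X.offDiag.image (fun p => T.v p.1 p.2)

theorem mem_V {X : Finset Q} {c : Q} :
    c ∈ T.V X ↔ ∃ a ∈ X, ∃ b ∈ X, a ≠ b ∧ T.v a b = c := by
  unfold V
  simp only [Finset.mem_image, Finset.mem_offDiag, Prod.exists]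
  constructor
  · rintro ⟨a, b, ⟨ha, hb, hab⟩, h⟩
    exact ⟨a, ha, b, hb, hab, h⟩
  · rintro ⟨a, ha, b, hb, hab, h⟩
    exact ⟨a, b, ⟨ha, hb, hab⟩, h⟩

theorem V_mono {X Y : Finset Q} (h : X ⊆ Y) : T.V X ⊆ T.V Y := by
  intro c hc
  rw [mem_V] at hc ⊢
  obtain ⟨a, ha, b, hb, hab, hc⟩ := hc
  exact ⟨a, h ha, b, h hb, hab, hc⟩

theorem V_empty : T.V ∅ = ∅ := by
  ext c; simp [mem_V]

theorem V_singleton (x : Q) : T.V {x} = ∅ := by
  ext c
  simp only [mem_V, Finset.mem_singleton, Finset.notMem_empty, iff_false]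
  rintro ⟨a, rfl, b, rfl, hab, -⟩
  exact hab rfl

/-- The levels of `insert x X` are those of `X` together with `h = v x a`, the largest. -/
theorem V_insert {X : Finset Q} {x a : Q} (hx : x ∉ X) (ha : a ∈ X)
    (hmax : ∀ b ∈ X, T.v x b ≤ T.v x a) : T.V (insert x X) = insert (T.v x a) (T.V X) := by
  have key : ∀ b ∈ X, T.v x b ∈ insert (T.v x a) (T.V X) := by
    intro b hb
    rcases eq_or_ne a b with rfl | hab
    · exact Finset.mem_insert_self _ _
    rcases (hmax b hb).eq_or_lt with h | h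
    · rw [h]; exact Finset.mem_insert_self _ _
    · apply Finset.mem_insert_of_mem
      rw [mem_V]
      refine ⟨a, ha, b, hb, hab, ?_⟩
      exact (T.sep x a b (fun h => hx (h ▸ ha)) (fun h => hx (h ▸ hb)) hab h).1
  ext c
  constructor
  · intro hc
    rw [mem_V] at hc
    obtain ⟨p, hp, q, hq, hpq, rfl⟩ := hc
    rcases Finset.mem_insert.1 hp with hp' | hp' <;> rcases Finset.mem_insert.1 hq with hq' | hq'
    · exact absurd (hp'.trans hq'.symm) hpq
    · rw [hp']; exact key q hq'
    · rw [hq', T.symm p x]; exact key p hp'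
    · apply Finset.mem_insert_of_mem
      rw [mem_V]
      exact ⟨p, hp', q, hq', hpq, rfl⟩
  · intro hc
    rcases Finset.mem_insert.1 hc with rfl | hc
    · rw [mem_V]
      exact ⟨x, Finset.mem_insert_self _ _, a, Finset.mem_insert_of_mem ha,
        fun h => hx (h ▸ ha), rfl⟩
    · exact T.V_mono (Finset.subset_insert _ _) hc

theorem card_V {X : Finset Q} (hX : X.Nonempty) : (T.V X).card + 1 ≤ X.card := by
  induction X using Finset.induction_on with
  | empty => exact absurd hX (by simp)
  | insert x X hx ih =>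
    rcases X.eq_empty_or_nonempty with rfl | hne
    · simp [V_singleton]
    · obtain ⟨a, ha, hmax⟩ := Finset.exists_max_image X (fun b => T.v x b) hne
      rw [T.V_insert hx ha hmax, Finset.card_insert_of_notMem hx]
      have := ih hne
      have h2 := Finset.card_insert_le (T.v x a) (T.V X)
      omega

theorem card_V_lt {X : Finset Q} (hX : X.Nonempty) : (T.V X).card < X.card := by
  have := T.card_V hX
  omega

/-- Iterated levels. -/
def VI : ℕ → Finset Q → Finset Q
  | 0, X => X
  | k + 1, X => VI k (T.V X)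

/-- `f` is a family of partial isomorphisms, one for each level. -/
def Good (f : ℕ → Q → Q) (X : Finset Q) : Prop :=
  ∀ k, StrictMonoOn (f k) (T.VI k X) ∧
    ∀ x ∈ T.VI k X, ∀ y ∈ T.VI k X, x ≠ y → f (k + 1) (T.v x y) = T.v (f k x) (f k y)

theorem good_iff {f : ℕ → Q → Q} {X : Finset Q} :
    T.Good f X ↔ (StrictMonoOn (f 0) X ∧
      (∀ x ∈ X, ∀ y ∈ X, x ≠ y → f 1 (T.v x y) = T.v (f 0 x) (f 0 y)) ∧
      T.Good (fun k => f (k + 1)) (T.V X)) := by
  constructor
  · intro h
    exact ⟨(h 0).1, (h 0).2, fun k => h (k + 1)⟩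
  · rintro ⟨h1, h2, h3⟩ k
    cases k with
    | zero => exact ⟨h1, h2⟩
    | succ k => exact h3 k

theorem Good.injOn {f : ℕ → Q → Q} {X : Finset Q} (h : T.Good f X) : Set.InjOn (f 0) X :=
  (h 0).1.injOn

theorem Good.lt_iff {f : ℕ → Q → Q} {X : Finset Q} (h : T.Good f X) {x y : Q} (hx : x ∈ X)
    (hy : y ∈ X) : f 0 x < f 0 y ↔ x < y := (h 0).1.lt_iff_lt hx hy

theorem Good.mono {f : ℕ → Q → Q} {X Y : Finset Q} (h : T.Good f X) (hY : Y ⊆ X) :
    T.Good f Y := by
  have key : ∀ k, ∀ Y X : Finset Q, Y ⊆ X → T.VI k Y ⊆ T.VI k X := by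
    intro k
    induction k with
    | zero => intro Y X h; exact h
    | succ k ih => intro Y X h; exact ih _ _ (T.V_mono h)
  intro k
  refine ⟨(h k).1.mono (by exact_mod_cast key k Y X hY), ?_⟩
  intro x hx y hy hxy
  exact (h k).2 x (key k Y X hY hx) y (key k Y X hY hy) hxy

theorem V_image {f : ℕ → Q → Q} {X : Finset Q} (h : T.Good f X) :
    T.V (X.image (f 0)) = (T.V X).image (f 1) := by
  ext c
  simp only [mem_V, Finset.mem_image]
  constructor
  · rintro ⟨_, ⟨a, ha, rfl⟩, _, ⟨b, hb, rfl⟩, hab, rfl⟩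
    have hab' : a ≠ b := fun h => hab (by rw [h])
    exact ⟨T.v a b, ⟨a, ha, b, hb, hab', rfl⟩, (h 0).2 a ha b hb hab'⟩
  · rintro ⟨_, ⟨a, ha, b, hb, hab, rfl⟩, rfl⟩
    refine ⟨f 0 a, ⟨a, ha, rfl⟩, f 0 b, ⟨b, hb, rfl⟩, ?_, ((h 0).2 a ha b hb hab).symm⟩
    intro h2
    exact hab ((h 0).1.injOn ha hb h2)

theorem VI_image (k : ℕ) : ∀ {f : ℕ → Q → Q} {X : Finset Q}, T.Good f X →
    T.VI k (X.image (f 0)) = (T.VI k X).image (f k) := by
  induction k with
  | zero => intro f X _; rfl
  | succ k ih =>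
    intro f X h
    change T.VI k (T.V (X.image (f 0))) = (T.VI k (T.V X)).image (f (k + 1))
    rw [T.V_image h]
    exact ih (f := fun k => f (k + 1)) ((T.good_iff.1 h).2.2)

theorem Good.id (X : Finset Q) : T.Good (fun _ x => x) X :=
  fun _ => ⟨strictMonoOn_id, fun _ _ _ _ _ => rfl⟩

theorem Good.comp {f g : ℕ → Q → Q} {X : Finset Q} (hf : T.Good f X)
    (hg : T.Good g (X.image (f 0))) : T.Good (fun k x => g k (f k x)) X := by
  intro k
  have him := T.VI_image k hf
  have hmem : ∀ x ∈ T.VI k X, f k x ∈ T.VI k (X.image (f 0)) := by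
    intro x hx
    rw [him]
    exact Finset.mem_image_of_mem _ hx
  refine ⟨?_, ?_⟩
  · intro x hx y hy hxy
    exact (hg k).1 (hmem x hx) (hmem y hy) ((hf k).1 hx hy hxy)
  · intro x hx y hy hxy
    change g (k + 1) (f (k + 1) (T.v x y)) = _
    rw [(hf k).2 x hx y hy hxy]
    exact (hg k).2 _ (hmem x hx) _ (hmem y hy) (fun h => hxy ((hf k).1.injOn hx hy h))

theorem Good.inv {f : ℕ → Q → Q} {X : Finset Q} (hf : T.Good f X) [Nonempty Q] :
    ∃ g : ℕ → Q → Q, T.Good g (X.image (f 0)) ∧ ∀ x ∈ X, g 0 (f 0 x) = x := by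
  have hinv : ∀ k, ∀ x ∈ T.VI k X, Function.invFunOn (f k) (T.VI k X) (f k x) = x := by
    intro k x hx
    exact (hf k).1.injOn.leftInvOn_invFunOn hx
  refine ⟨fun k => Function.invFunOn (f k) (T.VI k X), ?_, fun x hx => hinv 0 x hx⟩
  intro k
  rw [T.VI_image k hf]
  refine ⟨?_, ?_⟩
  · intro a ha b hb hab
    obtain ⟨x, hx, rfl⟩ := Finset.mem_image.1 (Finset.mem_coe.1 ha)
    obtain ⟨y, hy, rfl⟩ := Finset.mem_image.1 (Finset.mem_coe.1 hb)
    change Function.invFunOn (f k) (T.VI k X) (f k x) < Function.invFunOn (f k) (T.VI k X) (f k y)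
    rw [hinv k x hx, hinv k y hy]
    exact ((hf k).1.lt_iff_lt hx hy).1 hab
  · intro a ha b hb hab
    obtain ⟨x, hx, rfl⟩ := Finset.mem_image.1 ha
    obtain ⟨y, hy, rfl⟩ := Finset.mem_image.1 hb
    have hxy : x ≠ y := fun h => hab (by rw [h])
    change Function.invFunOn (f (k + 1)) (T.VI (k + 1) X) (T.v (f k x) (f k y)) =
      T.v (Function.invFunOn (f k) (T.VI k X) (f k x)) (Function.invFunOn (f k) (T.VI k X) (f k y))
    rw [hinv k x hx, hinv k y hy, ← (hf k).2 x hx y hy hxy]
    apply hinv (k + 1)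
    have : ∀ k, ∀ X : Finset Q, ∀ x ∈ T.VI k X, ∀ y ∈ T.VI k X, x ≠ y →
        T.v x y ∈ T.VI (k + 1) X := by
      intro k
      induction k with
      | zero =>
        intro X x hx y hy hxy
        change T.v x y ∈ T.V X
        rw [mem_V]
        exact ⟨x, hx, y, hy, hxy, rfl⟩
      | succ k ih =>
        intro X x hx y hy hxy
        exact ih (T.V X) x hx y hy hxy
    exact this k X x hx y hy hxy

/-- Back-and-forth: extending a good family by one point. -/
theorem extend : ∀ (n : ℕ) (X : Finset Q), X.card ≤ n → ∀ f, T.Good f X → ∀ x,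
    ∃ f', T.Good f' (insert x X) ∧ ∀ a ∈ X, f' 0 a = f 0 a := by
  intro n
  induction n with
  | zero =>
    intro X hX f hf x
    have : X = ∅ := Finset.card_eq_zero.1 (Nat.le_zero.1 hX)
    subst this
    refine ⟨f, ?_, fun _ _ => rfl⟩
    rw [good_iff]
    refine ⟨?_, ?_, ?_⟩
    · intro a ha b hb hab
      simp only [insert_empty_eq, Finset.coe_singleton, Set.mem_singleton_iff] at ha hb
      subst ha; subst hb
      exact absurd hab (lt_irrefl _)
    · intro a ha b hb hab
      simp only [insert_empty_eq, Finset.mem_singleton] at ha hb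
      subst ha; subst hb
      exact absurd rfl hab
    · have h1 : T.V (insert x ∅) = ∅ := T.V_singleton x
      rw [h1]
      exact (T.good_iff.1 hf).2.2
  | succ n ih =>
    intro X hX f hf x
    by_cases hx : x ∈ X
    · rw [Finset.insert_eq_of_mem hx]
      exact ⟨f, hf, fun _ _ => rfl⟩
    rcases X.eq_empty_or_nonempty with rfl | hne
    · exact ih ∅ (by simp) f hf x
    obtain ⟨a, ha, hmax⟩ := Finset.exists_max_image X (fun b => T.v x b) hne
    obtain ⟨hf0, hf1, hf2⟩ := T.good_iff.1 hf
    obtain ⟨g, hg, hgf⟩ := ih (T.V X) (by have := T.card_V hne; omega) _ hf2 (T.v x a)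
    have hg0 : ∀ c ∈ T.V X, g 0 c = f 1 c := hgf
    have hxne : ∀ b ∈ X, x ≠ b := fun b hb h => hx (h ▸ hb)
    set h := T.v x a with hh
    -- neighbours
    set L := (X.filter (fun b => T.v x b = h ∧ b < x)).image (f 0) with hL
    set R := (X.filter (fun b => T.v x b = h ∧ x < b)).image (f 0) with hR
    have hLR : ∀ b ∈ L ∪ R, ∃ b' ∈ X, T.v x b' = h ∧ f 0 b' = b := by
      intro b hb
      rcases Finset.mem_union.1 hb with hb | hb
      · obtain ⟨b', hb', rfl⟩ := Finset.mem_image.1 hb
        rw [Finset.mem_filter] at hb'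
        exact ⟨b', hb'.1, hb'.2.1, rfl⟩
      · obtain ⟨b', hb', rfl⟩ := Finset.mem_image.1 hb
        rw [Finset.mem_filter] at hb'
        exact ⟨b', hb'.1, hb'.2.1, rfl⟩
    have hVh : T.V (insert x X) = insert h (T.V X) := T.V_insert hx ha hmax
    obtain ⟨y, hyL, hyR⟩ := T.ext (g 0 h) L R (by
      intro b hb c hc hbc
      obtain ⟨b', hb', hb1, rfl⟩ := hLR b hb
      obtain ⟨c', hc', hc1, rfl⟩ := hLR c hc
      have hbc' : b' ≠ c' := fun h => hbc (by rw [h])
      have hmem : T.v b' c' ∈ T.V X := T.mem_V.2 ⟨b', hb', c', hc', hbc', rfl⟩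
      rw [← hf1 b' hb' c' hc' hbc', ← hg0 _ hmem]
      have hle : h ≤ T.v b' c' := by
        have := T.ultra b' x c' (hxne b' hb').symm (hxne c' hc') hbc'
        rwa [T.symm b' x, hb1, hc1, min_self] at this
      exact ((hg 0).1.le_iff_le (Finset.mem_insert_self _ _)
        (Finset.mem_insert_of_mem hmem)).2 hle)
      (by
      intro b hb c hc
      obtain ⟨b', hb', rfl⟩ := Finset.mem_image.1 hb
      obtain ⟨c', hc', rfl⟩ := Finset.mem_image.1 hc
      rw [Finset.mem_filter] at hb' hc'
      obtain ⟨hb', hb1, hb2⟩ := hb'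
      obtain ⟨hc', hc1, hc2⟩ := hc'
      have hbc' : b' < c' := hb2.trans hc2
      refine ⟨hf0 hb' hc' hbc', ?_⟩
      have hmem : T.v b' c' ∈ T.V X := T.mem_V.2 ⟨b', hb', c', hc', hbc'.ne, rfl⟩
      rw [← hf1 b' hb' c' hc' hbc'.ne, ← hg0 _ hmem, T.cut b' x c' hb2 hc2, T.symm b' x, hb1, hc1,
        min_self])
    -- the new point against neighbours
    have hN : ∀ b ∈ X, T.v x b = h → (f 0 b < y ↔ b < x) ∧ (y < f 0 b ↔ x < b) ∧
        T.v y (f 0 b) = g 0 h := by
      intro b hb hbh
      rcases lt_or_gt_of_ne (hxne b hb) with h1 | h1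
      · obtain ⟨h2, h3⟩ := hyR (f 0 b) (Finset.mem_image_of_mem _
          (Finset.mem_filter.2 ⟨hb, hbh, h1⟩))
        exact ⟨⟨fun h => absurd h2 (not_lt.2 h.le), fun h => absurd h1 (not_lt.2 h.le)⟩,
          ⟨fun _ => h1, fun _ => h2⟩, h3⟩
      · obtain ⟨h2, h3⟩ := hyL (f 0 b) (Finset.mem_image_of_mem _
          (Finset.mem_filter.2 ⟨hb, hbh, h1⟩))
        refine ⟨⟨fun _ => h1, fun _ => h2⟩,
          ⟨fun h => absurd h2 (not_lt.2 h.le), fun h => absurd h1 (not_lt.2 h.le)⟩, ?_⟩
        rw [T.symm]; exact h3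
    have hall : ∀ b ∈ X, (f 0 b < y ↔ b < x) ∧ (y < f 0 b ↔ x < b) ∧
        T.v y (f 0 b) = g 0 (T.v x b) := by
      intro b hb
      rcases (hmax b hb).eq_or_lt with hbh | hbh
      · have := hN b hb hbh
        rw [show T.v x b = h from hbh]
        exact this
      · have hab : a ≠ b := fun hab => by rw [hh, hab] at hbh; exact lt_irrefl _ hbh
        obtain ⟨ha1, ha2, ha3⟩ := hN a ha rfl
        have hs := T.sep x a b (hxne a ha) (hxne b hb) hab hbh
        have hmem : T.v a b ∈ T.V X := T.mem_V.2 ⟨a, ha, b, hb, hab, rfl⟩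
        have hfab : T.v (f 0 a) (f 0 b) = g 0 (T.v x b) := by
          rw [← hf1 a ha b hb hab, ← hg0 _ hmem, hs.1]
        have hlt : T.v (f 0 a) (f 0 b) < T.v (f 0 a) y := by
          rw [hfab, T.symm (f 0 a) y, ha3]
          apply (hg 0).1
          · rw [← hs.1]
            exact Finset.mem_insert_of_mem hmem
          · exact Finset.mem_insert_self _ _
          · exact hbh
        have hya : f 0 a ≠ y := by
          rcases lt_or_gt_of_ne (hxne a ha) with h1 | h1
          · exact (ha2.2 h1).ne'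
          · exact (ha1.2 h1).ne
        have hfab' : f 0 a ≠ f 0 b := fun h => hab (hf0.injOn ha hb h)
        have hyb : y ≠ f 0 b := by
          intro h
          rw [h] at hlt
          exact lt_irrefl _ hlt
        have hs2 := T.sep (f 0 a) y (f 0 b) hya hfab' hyb hlt
        have e1 : f 0 b < y ↔ b < x := by
          rw [hs2.2, hf0.lt_iff_lt hb ha, hs.2]
        refine ⟨e1, ?_, ?_⟩
        · constructor
          · intro h
            by_contra h2
            have : b < x := lt_of_le_of_ne (not_lt.1 h2) (hxne b hb).symm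
            exact absurd h (not_lt.2 (e1.2 this).le)
          · intro h
            by_contra h2
            have : f 0 b < y := lt_of_le_of_ne (not_lt.1 h2) hyb.symm
            exact absurd h (not_lt.2 (e1.1 this).le)
        · rw [hs2.1, hfab]
    -- the new family
    refine ⟨fun k => Nat.casesOn k (Function.update (f 0) x y) g, ?_, ?_⟩
    · rw [good_iff]
      refine ⟨?_, ?_, ?_⟩
      · intro p hp q hq hpq
        change Function.update (f 0) x y p < Function.update (f 0) x y q
        rcases Finset.mem_insert.1 (Finset.mem_coe.1 hp) with hp' | hp' <;>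
          rcases Finset.mem_insert.1 (Finset.mem_coe.1 hq) with hq' | hq'
        · exact absurd hpq (by rw [hp', hq']; exact lt_irrefl _)
        · rw [hp'] at hpq ⊢
          rw [Function.update_self, Function.update_of_ne (hxne q hq').symm]
          exact (hall q hq').2.1.2 hpq
        · rw [hq'] at hpq ⊢
          rw [Function.update_self, Function.update_of_ne (hxne p hp').symm]
          exact (hall p hp').1.2 hpq
        · rw [Function.update_of_ne (hxne q hq').symm, Function.update_of_ne (hxne p hp').symm]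
          exact hf0 hp' hq' hpq
      · intro p hp q hq hpq
        change g 0 (T.v p q) = T.v (Function.update (f 0) x y p) (Function.update (f 0) x y q)
        rcases Finset.mem_insert.1 hp with hp' | hp' <;>
          rcases Finset.mem_insert.1 hq with hq' | hq'
        · exact absurd (hp'.trans hq'.symm) hpq
        · rw [hp', Function.update_self, Function.update_of_ne (hxne q hq').symm]
          exact (hall q hq').2.2.symm
        · rw [hq', Function.update_self, Function.update_of_ne (hxne p hp').symm, T.symm p x,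
            T.symm (f 0 p) y]
          exact (hall p hp').2.2.symm
        · rw [Function.update_of_ne (hxne q hq').symm, Function.update_of_ne (hxne p hp').symm]
          rw [hg0 _ (T.mem_V.2 ⟨p, hp', q, hq', hpq, rfl⟩)]
          exact hf1 p hp' q hq' hpq
      · rw [hVh]
        exact hg
    · intro b hb
      change Function.update (f 0) x y b = f 0 b
      rw [Function.update_of_ne (hxne b hb).symm]

/-- Equivalence of tuples. -/
def Eqv {ι : Type} [Fintype ι] (x y : ι → Q) : Prop :=
  ∃ f, T.Good f (Finset.univ.image x) ∧ ∀ i, f 0 (x i) = y i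

/-- Only finitely many classes of tuples. -/
theorem fin_classes : ∀ (d : ℕ) (ι : Type) [Fintype ι], ∃ (F : Type) (_ : Finite F)
    (inv : (ι → Q) → F), ∀ x y : ι → Q, (Finset.univ.image x).card ≤ d → inv x = inv y →
      T.Eqv x y := by
  intro d
  induction d with
  | zero =>
    intro ι _
    refine ⟨Unit, inferInstance, fun _ => (), ?_⟩
    intro x y hx _
    have h0 : Finset.univ.image x = ∅ := Finset.card_eq_zero.1 (Nat.le_zero.1 hx)
    have hι : IsEmpty ι := by
      rw [Finset.image_eq_empty] at h0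
      exact Finset.univ_eq_empty_iff.1 h0
    exact ⟨fun _ x => x, Good.id T _, fun i => (hι.false i).elim⟩
  | succ d ih =>
    intro ι _
    have hp : ∀ p : ι × ι → Bool, ∃ (F : Type) (_ : Finite F)
        (inv : ({ij : ι × ι // p ij = true} → Q) → F), ∀ x y : {ij : ι × ι // p ij = true} → Q,
          (Finset.univ.image x).card ≤ d → inv x = inv y → T.Eqv x y := fun p => ih _
    choose F hF inv hinv using hp
    refine ⟨(ι × ι → Bool) × (∀ p, F p), inferInstance,
      fun x => (fun ij => decide (x ij.1 < x ij.2),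
        fun p => inv p (fun ij => T.v (x ij.1.1) (x ij.1.2))), ?_⟩
    intro x y hx hxy
    rw [Prod.mk.injEq] at hxy
    obtain ⟨hpat, hder⟩ := hxy
    set p : ι × ι → Bool := fun ij => decide (x ij.1 < x ij.2) with hp
    have hder' := congrFun hder p
    have hpat' : ∀ i j, x i < x j ↔ y i < y j := by
      intro i j
      have := congrFun hpat (i, j)
      simpa [hp] using this
    have heq : ∀ i j, x i = x j → y i = y j := by
      intro i j h
      rcases lt_trichotomy (y i) (y j) with h1 | h1 | h1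
      · exact absurd h ((hpat' i j).2 h1).ne
      · exact h1
      · exact absurd h ((hpat' j i).2 h1).ne'
    have hVx : Finset.univ.image (fun ij : {ij : ι × ι // p ij = true} =>
        T.v (x ij.1.1) (x ij.1.2)) = T.V (Finset.univ.image x) := by
      ext c
      simp only [Finset.mem_image, Finset.mem_univ, true_and, mem_V]
      constructor
      · rintro ⟨⟨⟨i, j⟩, hij⟩, rfl⟩
        have hij' : x i < x j := by simpa [hp] using hij
        exact ⟨x i, ⟨i, rfl⟩, x j, ⟨j, rfl⟩, hij'.ne, rfl⟩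
      · rintro ⟨_, ⟨i, rfl⟩, _, ⟨j, rfl⟩, hij, rfl⟩
        rcases lt_or_gt_of_ne hij with h | h
        · exact ⟨⟨(i, j), by simpa [hp] using h⟩, rfl⟩
        · exact ⟨⟨(j, i), by simpa [hp] using h⟩, T.symm _ _⟩
    have hcard : (Finset.univ.image (fun ij : {ij : ι × ι // p ij = true} =>
        T.v (x ij.1.1) (x ij.1.2))).card ≤ d := by
      rw [hVx]
      rcases (Finset.univ.image x).eq_empty_or_nonempty with h | h
      · rw [h, V_empty]; simp
      · have := T.card_V h
        omega
    obtain ⟨g, hg, hgy⟩ := hinv p _ _ hcard hder'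
    rw [hVx] at hg
    -- the map on the bottom level
    classical
    let f0 : Q → Q := fun q => if h : ∃ i, x i = q then y h.choose else q
    have hf0 : ∀ i, f0 (x i) = y i := by
      intro i
      have h : ∃ j, x j = x i := ⟨i, rfl⟩
      simp only [f0, dif_pos h]
      exact heq _ _ h.choose_spec
    refine ⟨fun k => Nat.casesOn k f0 g, ?_, hf0⟩
    rw [good_iff]
    refine ⟨?_, ?_, hg⟩
    · intro a ha b hb hab
      simp only [Finset.coe_image, Finset.coe_univ, Set.image_univ, Set.mem_range] at ha hb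
      obtain ⟨i, rfl⟩ := ha
      obtain ⟨j, rfl⟩ := hb
      change f0 (x i) < f0 (x j)
      rw [hf0, hf0]
      exact (hpat' i j).1 hab
    · intro a ha b hb hab
      simp only [Finset.mem_image, Finset.mem_univ, true_and] at ha hb
      obtain ⟨i, rfl⟩ := ha
      obtain ⟨j, rfl⟩ := hb
      change g 0 (T.v (x i) (x j)) = T.v (f0 (x i)) (f0 (x j))
      rw [hf0, hf0]
      rcases lt_or_gt_of_ne hab with h | h
      · exact hgy ⟨(i, j), by simpa [hp] using h⟩
      · rw [T.symm, T.symm (y i)]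
        exact hgy ⟨(j, i), by simpa [hp] using h⟩

theorem mono_aux (a x0 x1 x2 : Q) (h1 : x1 ∈ Set.uIcc x0 x2)
    (h : (a < x0 ∧ a < x2) ∨ (x0 < a ∧ x2 < a)) :
    T.v a x1 ∈ Set.uIcc (T.v a x0) (T.v a x2) ∧ a ≠ x1 ∧ (a < x1 ↔ a < x0) := by
  have anti : ∀ x y : Q, a < x → x ≤ y → T.v a y ≤ T.v a x := by
    intro x y hx hy
    rcases hy.eq_or_lt with rfl | hy
    · exact le_rfl
    · rw [T.cut a x y hx hy]; exact min_le_left _ _
  have mono : ∀ x y : Q, x ≤ y → y < a → T.v a x ≤ T.v a y := by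
    intro x y hx hy
    rcases hx.eq_or_lt with rfl | hx
    · exact le_rfl
    · rw [T.symm a x, T.symm a y, T.cut x y a hx hy]; exact min_le_right _ _
  rw [Set.mem_uIcc] at h1 ⊢
  rcases h with ⟨ha, hb⟩ | ⟨ha, hb⟩
  · rcases h1 with ⟨h1, h2⟩ | ⟨h1, h2⟩
    · have : a < x1 := ha.trans_le h1
      exact ⟨Or.inr ⟨anti x1 x2 this h2, anti x0 x1 ha h1⟩, this.ne, ⟨fun _ => ha, fun _ => this⟩⟩
    · have : a < x1 := hb.trans_le h1
      exact ⟨Or.inl ⟨anti x1 x0 this h2, anti x2 x1 hb h1⟩, this.ne, ⟨fun _ => ha, fun _ => this⟩⟩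
  · rcases h1 with ⟨h1, h2⟩ | ⟨h1, h2⟩
    · have : x1 < a := h2.trans_lt hb
      exact ⟨Or.inl ⟨mono x0 x1 h1 this, mono x1 x2 h2 hb⟩, this.ne',
        ⟨fun h => absurd h (not_lt.2 this.le), fun h => absurd h (not_lt.2 ha.le)⟩⟩
    · have : x1 < a := h2.trans_lt ha
      exact ⟨Or.inr ⟨mono x2 x1 h1 this, mono x1 x0 h2 ha⟩, this.ne',
        ⟨fun h => absurd h (not_lt.2 this.le), fun h => absurd h (not_lt.2 ha.le)⟩⟩

/-- Classes over a finite set are convex. -/
theorem conv : ∀ (n : ℕ) (X : Finset Q), X.card ≤ n → ∀ (f : ℕ → Q → Q) (x0 x1 x2 : Q),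
    T.Good f (insert x0 X) → (∀ a ∈ X, f 0 a = a) → f 0 x0 = x2 → x1 ∈ Set.uIcc x0 x2 →
    ∃ f', T.Good f' (insert x0 X) ∧ (∀ a ∈ X, f' 0 a = a) ∧ f' 0 x0 = x1 := by
  intro n
  induction n with
  | zero =>
    intro X hX f x0 x1 x2 hf hfX hfx hx1
    have : X = ∅ := Finset.card_eq_zero.1 (Nat.le_zero.1 hX)
    subst this
    refine ⟨fun k => Nat.casesOn k (fun _ => x1) (fun k => f (k + 1)), ?_, by simp, rfl⟩
    rw [good_iff]
    refine ⟨?_, ?_, (T.good_iff.1 hf).2.2⟩
    · intro a ha b hb hab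
      simp only [insert_empty_eq, Finset.coe_singleton, Set.mem_singleton_iff] at ha hb
      subst ha; subst hb
      exact absurd hab (lt_irrefl _)
    · intro a ha b hb hab
      simp only [insert_empty_eq, Finset.mem_singleton] at ha hb
      subst ha; subst hb
      exact absurd rfl hab
  | succ n ih =>
    intro X hX f x0 x1 x2 hf hfX hfx hx1
    by_cases hx : x0 ∈ X
    · have h2 : x2 = x0 := by rw [← hfx]; exact hfX x0 hx
      subst h2
      have h3 : x1 = x2 := by simpa using hx1
      subst h3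
      exact ⟨f, hf, hfX, hfx⟩
    rcases X.eq_empty_or_nonempty with rfl | hne
    · exact ih ∅ (by simp) f x0 x1 x2 hf hfX hfx hx1
    have hxne : ∀ b ∈ X, x0 ≠ b := fun b hb h => hx (h ▸ hb)
    obtain ⟨a, ha, hmax⟩ := Finset.exists_max_image X (fun b => T.v x0 b) hne
    obtain ⟨hf0, hf1, hf2⟩ := T.good_iff.1 hf
    have hVh : T.V (insert x0 X) = insert (T.v x0 a) (T.V X) := T.V_insert hx ha hmax
    have m0 : x0 ∈ insert x0 X := Finset.mem_insert_self _ _
    have mX : ∀ b ∈ X, b ∈ insert x0 X := fun b hb => Finset.mem_insert_of_mem hb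
    -- f 1 on V X is the identity, f 1 (v x0 b) = v x2 b
    have hid : ∀ c ∈ T.V X, f 1 c = c := by
      intro c hc
      obtain ⟨p, hp, q, hq, hpq, rfl⟩ := T.mem_V.1 hc
      rw [hf1 p (mX p hp) q (mX q hq) hpq, hfX p hp, hfX q hq]
    have hx2 : ∀ b ∈ X, f 1 (T.v x0 b) = T.v x2 b := by
      intro b hb
      rw [hf1 x0 m0 b (mX b hb) (hxne b hb), hfx, hfX b hb]
    have hside : ∀ b ∈ X, (b < x0 ∧ b < x2) ∨ (x0 < b ∧ x2 < b) := by
      intro b hb
      rcases lt_or_gt_of_ne (hxne b hb) with h | h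
      · right
        refine ⟨h, ?_⟩
        have := hf0 (Finset.mem_coe.2 m0) (Finset.mem_coe.2 (mX b hb)) h
        rwa [hfx, hfX b hb] at this
      · left
        refine ⟨h, ?_⟩
        have := hf0 (Finset.mem_coe.2 (mX b hb)) (Finset.mem_coe.2 m0) h
        rwa [hfx, hfX b hb] at this
    have hmono : ∀ b ∈ X, T.v b x1 ∈ Set.uIcc (T.v b x0) (T.v b x2) ∧ b ≠ x1 ∧
        (b < x1 ↔ b < x0) := fun b hb => T.mono_aux b x0 x1 x2 hx1 (hside b hb)
    have hx2ne : ∀ b ∈ X, x2 ≠ b := by
      intro b hb h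
      rcases hside b hb with h' | h'
      · exact h'.2.ne h.symm
      · exact h'.2.ne h
    rw [hVh] at hf2
    obtain ⟨g, hg, hgid, hgh⟩ := ih (T.V X) (by have := T.card_V hne; omega)
      (fun k => f (k + 1)) (T.v x0 a) (T.v a x1) (T.v x2 a) hf2 hid (hx2 a ha) (by
        have := (hmono a ha).1
        rwa [T.symm a x0, T.symm a x2] at this)
    -- values against x1
    have hval : ∀ b ∈ X, g 0 (T.v x0 b) = T.v b x1 := by
      intro b hb
      rcases eq_or_ne a b with rfl | hab
      · exact hgh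
      rcases (hmax b hb).eq_or_lt with h | h
      · -- same level
        have h' : T.v x0 b = T.v x0 a := h
        rw [h', hgh]
        have h2 : T.v x2 b = T.v x2 a := by rw [← hx2 b hb, ← hx2 a ha, h']
        have e1 : T.v x0 a ≤ T.v a b := by
          have := T.ultra a x0 b (hxne a ha).symm (hxne b hb) hab
          rwa [T.symm a x0, h', min_self] at this
        have e2 : T.v x2 a ≤ T.v a b := by
          have := T.ultra a x2 b (hx2ne a ha).symm (hx2ne b hb) hab
          rwa [T.symm a x2, h2, min_self] at this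
        have b1 : T.v b x1 ≤ T.v a b := by
          have := (hmono b hb).1
          rw [T.symm b x0, T.symm b x2, h', h2, Set.mem_uIcc] at this
          rcases this with h | h
          · exact h.2.trans e2
          · exact h.2.trans e1
        have a1 : T.v a x1 ≤ T.v a b := by
          have := (hmono a ha).1
          rw [T.symm a x0, T.symm a x2, Set.mem_uIcc] at this
          rcases this with h | h
          · exact h.2.trans e2
          · exact h.2.trans e1
        apply le_antisymm
        · have := T.ultra b a x1 hab.symm (hmono a ha).2.1 (hmono b hb).2.1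
          rwa [T.symm b a, min_eq_right a1] at this
        · have := T.ultra a b x1 hab (hmono b hb).2.1 (hmono a ha).2.1
          rwa [min_eq_right b1] at this
      · -- lower level
        have hs := T.sep x0 a b (hxne a ha) (hxne b hb) hab h
        have hmem : T.v a b ∈ T.V X := T.mem_V.2 ⟨a, ha, b, hb, hab, rfl⟩
        rw [← hs.1, hgid _ hmem]
        have h2 : T.v x2 b = T.v a b := by
          rw [← hx2 b hb, ← hs.1, hid _ hmem]
        have := (hmono b hb).1
        rw [T.symm b x0, T.symm b x2, ← hs.1, h2, Set.uIcc_self, Set.mem_singleton_iff] at this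
        exact this.symm
    refine ⟨fun k => Nat.casesOn k (Function.update (fun x => x) x0 x1) g, ?_, ?_, ?_⟩
    · rw [good_iff]
      refine ⟨?_, ?_, ?_⟩
      · intro p hp q hq hpq
        change Function.update (fun x => x) x0 x1 p < Function.update (fun x => x) x0 x1 q
        rcases Finset.mem_insert.1 (Finset.mem_coe.1 hp) with hp' | hp' <;>
          rcases Finset.mem_insert.1 (Finset.mem_coe.1 hq) with hq' | hq'
        · exact absurd hpq (by rw [hp', hq']; exact lt_irrefl _)
        · rw [hp'] at hpq ⊢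
          rw [Function.update_self, Function.update_of_ne (hxne q hq').symm]
          have := (hmono q hq')
          rcases lt_or_gt_of_ne this.2.1 with h | h
          · exact absurd (this.2.2.1 h) (not_lt.2 hpq.le)
          · exact h
        · rw [hq'] at hpq ⊢
          rw [Function.update_self, Function.update_of_ne (hxne p hp').symm]
          exact (hmono p hp').2.2.2 hpq
        · rw [Function.update_of_ne (hxne q hq').symm, Function.update_of_ne (hxne p hp').symm]
          exact hpq
      · intro p hp q hq hpq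
        change g 0 (T.v p q) =
          T.v (Function.update (fun x => x) x0 x1 p) (Function.update (fun x => x) x0 x1 q)
        rcases Finset.mem_insert.1 hp with hp' | hp' <;>
          rcases Finset.mem_insert.1 hq with hq' | hq'
        · exact absurd (hp'.trans hq'.symm) hpq
        · rw [hp', Function.update_self, Function.update_of_ne (hxne q hq').symm, T.symm x1 q]
          exact hval q hq'
        · rw [hq', Function.update_self, Function.update_of_ne (hxne p hp').symm, T.symm p x0]
          exact hval p hp'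
        · rw [Function.update_of_ne (hxne q hq').symm, Function.update_of_ne (hxne p hp').symm]
          exact hgid _ (T.mem_V.2 ⟨p, hp', q, hq', hpq, rfl⟩)
      · rw [hVh]
        exact hg
    · intro b hb
      change Function.update (fun x => x) x0 x1 b = b
      rw [Function.update_of_ne (hxne b hb).symm]
    · change Function.update (fun x => x) x0 x1 x0 = x1
      rw [Function.update_self]

end Tower

/-- Arities of the relation symbols: `ar k = 2 ^ (k + 1)`. -/
def ar : ℕ → ℕ
  | 0 => 2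
  | k + 1 => ar k + ar k

/-- The relation symbols: `R k` of arity `ar k`. -/
inductive TRel : ℕ → Type
  | R (k : ℕ) : TRel (ar k)

/-- The language of towers. -/
def LT : FirstOrder.Language.{0, 0} := ⟨fun _ => Empty, TRel⟩

instance : LT.IsRelational := fun _ => inferInstanceAs (IsEmpty Empty)

namespace Tower

variable {Q : Type} [LinearOrder Q] (T : Tower Q)

/-- `R k` compares two iterated levels. -/
def RR : (k : ℕ) → (Fin (ar k) → Q) → Prop
  | 0, xs => xs (0 : Fin 2) < xs (1 : Fin 2)
  | k + 1, xs => (∀ i : Fin (ar k), xs (Fin.castAdd (ar k) i) ≠ xs (Fin.natAdd (ar k) i)) ∧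
      RR k (fun i => T.v (xs (Fin.castAdd (ar k) i)) (xs (Fin.natAdd (ar k) i)))

/-- The structure on a tower. -/
@[reducible] def str : LT.Structure Q where
  funMap := fun f => f.elim
  RelMap := fun {n} r xs => match n, r, xs with
    | _, TRel.R k, xs => T.RR k xs

theorem RR_good : ∀ (k : ℕ) (f : ℕ → Q → Q) (X : Finset Q), T.Good f X →
    ∀ xs : Fin (ar k) → Q, (∀ i, xs i ∈ X) → (T.RR k (fun i => f 0 (xs i)) ↔ T.RR k xs) := by
  intro k
  induction k with
  | zero =>
    intro f X hf xs hxs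
    exact hf.lt_iff T (hxs _) (hxs _)
  | succ k ih =>
    intro f X hf xs hxs
    change ((∀ i : Fin (ar k), f 0 (xs (Fin.castAdd (ar k) i)) ≠ f 0 (xs (Fin.natAdd (ar k) i))) ∧
      T.RR k (fun i => T.v (f 0 (xs (Fin.castAdd (ar k) i))) (f 0 (xs (Fin.natAdd (ar k) i))))) ↔
      ((∀ i : Fin (ar k), xs (Fin.castAdd (ar k) i) ≠ xs (Fin.natAdd (ar k) i)) ∧
      T.RR k (fun i => T.v (xs (Fin.castAdd (ar k) i)) (xs (Fin.natAdd (ar k) i))))
    have h1 : (∀ i : Fin (ar k), f 0 (xs (Fin.castAdd (ar k) i)) ≠ f 0 (xs (Fin.natAdd (ar k) i))) ↔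
        (∀ i : Fin (ar k), xs (Fin.castAdd (ar k) i) ≠ xs (Fin.natAdd (ar k) i)) := by
      apply forall_congr'
      intro i
      exact not_congr ⟨fun h => hf.injOn T (hxs _) (hxs _) h, fun h => by rw [h]⟩
    rw [h1]
    apply and_congr_right
    intro hne
    obtain ⟨_, hf1, hf2⟩ := T.good_iff.1 hf
    rw [← ih _ _ hf2 (fun i => T.v (xs (Fin.castAdd (ar k) i)) (xs (Fin.natAdd (ar k) i)))
      (fun i => T.mem_V.2 ⟨_, hxs _, _, hxs _, hne i, rfl⟩)]
    apply iff_of_eq
    congr 1
    funext i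
    exact (hf1 _ (hxs _) _ (hxs _) (hne i)).symm

/-- Terms of a relational language are variables. -/
theorem term_var {L : FirstOrder.Language.{0, 0}} [L.IsRelational] {α : Type} (t : L.Term α) :
    ∃ a, t = Term.var a := by
  cases t with
  | var a => exact ⟨a, rfl⟩
  | func f _ => exact isEmptyElim f

/-- Good families preserve all formulas. -/
theorem realize_good [Nonempty Q] {α : Type} {n : ℕ} (φ : LT.BoundedFormula α n) :
    letI := T.str
    ∀ (f : ℕ → Q → Q) (X : Finset Q), T.Good f X → ∀ (w : α → Q) (xs : Fin n → Q),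
      (∀ a, w a ∈ X) → (∀ i, xs i ∈ X) →
      (φ.Realize (fun a => f 0 (w a)) (fun i => f 0 (xs i)) ↔ φ.Realize w xs) := by
  letI := T.str
  induction φ with
  | falsum => intro f X hf w xs hw hxs; exact Iff.rfl
  | equal t₁ t₂ =>
    intro f X hf w xs hw hxs
    obtain ⟨a, rfl⟩ := term_var t₁
    obtain ⟨b, rfl⟩ := term_var t₂
    have hmem : ∀ c, Sum.elim w xs c ∈ X := fun c => by cases c <;> simp [hw, hxs]
    have he : ∀ c, Sum.elim (fun a => f 0 (w a)) (fun i => f 0 (xs i)) c = f 0 (Sum.elim w xs c) :=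
      fun c => by cases c <;> rfl
    simp only [BoundedFormula.Realize, Term.realize_var, he]
    exact ⟨fun h => hf.injOn T (hmem a) (hmem b) h, fun h => by rw [h]⟩
  | rel R ts =>
    intro f X hf w xs hw hxs
    have hmem : ∀ c, Sum.elim w xs c ∈ X := fun c => by cases c <;> simp [hw, hxs]
    have he : ∀ c, Sum.elim (fun a => f 0 (w a)) (fun i => f 0 (xs i)) c = f 0 (Sum.elim w xs c) :=
      fun c => by cases c <;> rfl
    cases R with
    | R k =>
      have ht : ∀ i, ∃ a, ts i = Term.var a := fun i => term_var (ts i)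
      choose a ha using ht
      simp only [BoundedFormula.Realize, ha, Term.realize_var, he]
      exact T.RR_good k f X hf (fun i => Sum.elim w xs (a i)) (fun i => hmem _)
  | imp φ ψ ih1 ih2 =>
    intro f X hf w xs hw hxs
    simp only [BoundedFormula.realize_imp]
    rw [ih1 f X hf w xs hw hxs, ih2 f X hf w xs hw hxs]
  | all φ ih =>
    intro f X hf w xs hw hxs
    simp only [BoundedFormula.realize_all]
    constructor
    · intro h x
      obtain ⟨f', hf', hff⟩ := T.extend _ X le_rfl f hf x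
      have := ih f' (insert x X) hf' w (Fin.snoc xs x) (fun a => Finset.mem_insert_of_mem (hw a))
        (fun i => by
          refine Fin.lastCases ?_ (fun i => ?_) i
          · rw [Fin.snoc_last]; exact Finset.mem_insert_self _ _
          · rw [Fin.snoc_castSucc]; exact Finset.mem_insert_of_mem (hxs i))
      rw [← this]
      have h1 : (fun a => f' 0 (w a)) = fun a => f 0 (w a) := funext fun a => hff _ (hw a)
      have h2 : (fun i => f' 0 ((Fin.snoc xs x : Fin _ → Q) i)) =
          Fin.snoc (fun i => f 0 (xs i)) (f' 0 x) := by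
        funext i
        refine Fin.lastCases ?_ (fun i => ?_) i
        · rw [Fin.snoc_last, Fin.snoc_last]
        · rw [Fin.snoc_castSucc, Fin.snoc_castSucc]; exact hff _ (hxs i)
      rw [h1, h2]
      exact h _
    · intro h y
      -- extend the inverse to `y`
      obtain ⟨g, hg, hgf⟩ := hf.inv
      obtain ⟨g', hg', hgg⟩ := T.extend _ _ le_rfl g hg y
      set x := g' 0 y with hx
      -- the inverse of g'
      obtain ⟨f', hf', hff⟩ := hg'.inv
      have himg : (insert y (X.image (f 0))).image (g' 0) = insert x X := by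
        rw [Finset.image_insert]
        congr 1
        rw [Finset.image_image]
        ext c
        simp only [Finset.mem_image, Function.comp]
        constructor
        · rintro ⟨a, ha, rfl⟩
          rw [hgg _ (Finset.mem_image_of_mem _ ha), hgf a ha]
          exact ha
        · intro hc
          exact ⟨c, hc, by rw [hgg _ (Finset.mem_image_of_mem _ hc), hgf c hc]⟩
      rw [himg] at hf'
      have hfx : f' 0 x = y := hff y (Finset.mem_insert_self _ _)
      have hfX : ∀ a ∈ X, f' 0 a = f 0 a := by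
        intro a ha
        have h1 := hff (f 0 a) (Finset.mem_insert_of_mem (Finset.mem_image_of_mem _ ha))
        rwa [hgg _ (Finset.mem_image_of_mem _ ha), hgf a ha] at h1
      have := ih f' (insert x X) hf' w (Fin.snoc xs x) (fun a => Finset.mem_insert_of_mem (hw a))
        (fun i => by
          refine Fin.lastCases ?_ (fun i => ?_) i
          · rw [Fin.snoc_last]; exact Finset.mem_insert_self _ _
          · rw [Fin.snoc_castSucc]; exact Finset.mem_insert_of_mem (hxs i))
      have h1 : (fun a => f' 0 (w a)) = fun a => f 0 (w a) := funext fun a => hfX _ (hw a)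
      have h2 : (fun i => f' 0 ((Fin.snoc xs x : Fin _ → Q) i)) =
          Fin.snoc (fun i => f 0 (xs i)) y := by
        funext i
        refine Fin.lastCases ?_ (fun i => ?_) i
        · rw [Fin.snoc_last, Fin.snoc_last, hfx]
        · rw [Fin.snoc_castSucc, Fin.snoc_castSucc]; exact hfX _ (hxs i)
      rw [h1, h2] at this
      rw [this]
      exact h x

/-- Equivalent tuples satisfy the same formulas. -/
theorem Eqv.realize [Nonempty Q] {ι : Type} [Fintype ι] {x y : ι → Q} (h : T.Eqv x y)
    (φ : LT.Formula ι) : letI := T.str; φ.Realize x ↔ φ.Realize y := by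
  letI := T.str
  obtain ⟨f, hf, hfy⟩ := h
  have := T.realize_good φ f _ hf x (default : Fin 0 → Q)
    (fun a => Finset.mem_image_of_mem _ (Finset.mem_univ a)) (fun i => i.elim0)
  have h1 : (fun a => f 0 (x a)) = y := funext hfy
  rw [h1] at this
  have h2 : (fun i => f 0 ((default : Fin 0 → Q) i)) = (default : Fin 0 → Q) :=
    funext fun i => i.elim0
  rw [h2] at this
  exact this.symm

/-- Finitely many types. -/
theorem fin_types [Nonempty Q] : letI := T.str
    ∀ (ι : Type) [Finite ι], ∃ (F : Type) (_ : Finite F) (inv : (ι → Q) → F),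
      ∀ x y : ι → Q, inv x = inv y → ∀ φ : LT.Formula ι, (φ.Realize x ↔ φ.Realize y) := by
  letI := T.str
  intro ι _
  haveI := Fintype.ofFinite ι
  obtain ⟨F, hF, inv, hinv⟩ := T.fin_classes (Fintype.card ι) ι
  refine ⟨F, hF, inv, fun x y hxy φ => ?_⟩
  exact (hinv x y (Finset.card_image_le.trans (by rw [Finset.card_univ])) hxy).realize T φ

end Tower


namespace Tower

variable {Q : Type} [LinearOrder Q] (T : Tower Q)

theorem weaklyOMinimal [Nonempty Q] : letI := T.str; WeaklyOMinimal LT Q := by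
  classical
  let _ := T.str
  intro S hS
  -- extract a formula with finitely many parameters
  obtain ⟨φ, hφ⟩ := Set.definable_iff_exists_formula_sum.1 hS
  let α0 : Type := φ.freeVarFinset
  let q0 : Q := Classical.arbitrary Q
  let p : α0 → Q := fun a => Sum.elim (fun q => q.1) (fun _ => q0) a.1
  let X : Finset Q := Finset.univ.image p
  have hSφ : ∀ x, x ∈ S ↔ (φ.restrictFreeVar id).Realize
      (fun a : α0 => Sum.elim (fun q => q.1) (fun _ => x) a.1) (default : Fin 0 → Q) := by
    intro x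
    have h1 : x ∈ S ↔ (fun _ => x : Fin 1 → Q) ∈ {v : Fin 1 → Q | v 0 ∈ S} := Iff.rfl
    rw [h1]
    change _ ∈ {v : Fin 1 → Q | v 0 ∈ S} ↔ _
    rw [show {v : Fin 1 → Q | v 0 ∈ S} = _ from hφ]
    rw [BoundedFormula.realize_restrictFreeVar (Sum.elim (fun q => q.1) (fun _ => x))
      (by intro a; rfl)]
    rfl
  have key : ∀ (f : ℕ → Q → Q) (x : Q), T.Good f (insert x X) → (∀ a ∈ X, f 0 a = a) →
      (f 0 x ∈ S ↔ x ∈ S) := by
    intro f x hf hfX
    rw [hSφ, hSφ]
    have := T.realize_good (φ.restrictFreeVar id) f _ hf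
      (fun a : α0 => Sum.elim (fun q => q.1) (fun _ => x) a.1) (default : Fin 0 → Q)
      (by
        rintro ⟨a | a, ha⟩
        · exact Finset.mem_insert_of_mem (Finset.mem_image.2 ⟨⟨Sum.inl a, ha⟩, Finset.mem_univ _, rfl⟩)
        · exact Finset.mem_insert_self _ _) (fun i => i.elim0)
    rw [← this]
    apply iff_of_eq
    congr 1
    · funext a
      obtain ⟨a | a, ha⟩ := a
      · exact (hfX _ (Finset.mem_image.2 ⟨⟨Sum.inl a, ha⟩, Finset.mem_univ _, rfl⟩)).symm
      · rfl
    · funext i; exact i.elim0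
  -- the classes
  let y : Q → Option α0 → Q := fun x o => o.elim x p
  obtain ⟨F, hF, inv, hinv⟩ := T.fin_classes (Fintype.card (Option α0)) (Option α0)
  let rel : Q → Q → Prop := fun x x' =>
    ∃ f, T.Good f (insert x X) ∧ (∀ a ∈ X, f 0 a = a) ∧ f 0 x = x'
  have hrel : ∀ x x', inv (y x) = inv (y x') → rel x x' := by
    intro x x' h
    obtain ⟨f, hf, hfy⟩ := hinv (y x) (y x') (Finset.card_image_le.trans (by rw [Finset.card_univ]))
      h
    refine ⟨f, ?_, ?_, hfy none⟩
    · apply hf.mono T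
      intro a ha
      rcases Finset.mem_insert.1 ha with rfl | ha
      · exact Finset.mem_image.2 ⟨none, Finset.mem_univ _, rfl⟩
      · obtain ⟨b, -, rfl⟩ := Finset.mem_image.1 ha
        exact Finset.mem_image.2 ⟨some b, Finset.mem_univ _, rfl⟩
    · intro a ha
      obtain ⟨b, -, rfl⟩ := Finset.mem_image.1 ha
      exact hfy (some b)
  have hconv : ∀ x, {x' | rel x x'}.OrdConnected := by
    intro x
    constructor
    intro a ha b hb t ht
    obtain ⟨f, hf, hfX, hfa⟩ := ha
    obtain ⟨g, hg, hgX, hgb⟩ := hb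
    rcases le_total t x with h | h
    · exact T.conv _ X le_rfl f x t a hf hfX hfa (Set.mem_uIcc.2 (Or.inr ⟨ht.1, h⟩))
    · exact T.conv _ X le_rfl g x t b hg hgX hgb (Set.mem_uIcc.2 (Or.inl ⟨h, ht.2⟩))
  let F' : Type := {c : F // ∃ x ∈ S, inv (y x) = c}
  let r : F' → Q := fun c => c.2.choose
  have hr1 : ∀ c, r c ∈ S := fun c => c.2.choose_spec.1
  have hr2 : ∀ c, inv (y (r c)) = c.1 := fun c => c.2.choose_spec.2
  refine ⟨Set.range (fun c : F' => {x' | rel (r c) x'}), Set.finite_range _, ?_, ?_⟩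
  · rintro _ ⟨c, rfl⟩
    exact hconv _
  · ext x
    simp only [Set.mem_sUnion, Set.mem_range, exists_exists_eq_and, Set.mem_ofPred_eq]
    constructor
    · intro hx
      refine ⟨⟨inv (y x), x, hx, rfl⟩, ?_⟩
      exact hrel _ _ (hr2 _)
    · rintro ⟨c, f, hf, hfX, hfx⟩
      rw [← hfx, key f _ hf hfX]
      exact hr1 c

end Tower

namespace RN

variable {L : FirstOrder.Language.{0, 0}} (M N : Type) [L.Structure M] [L.Structure N]

/-- Finitely many types of tuples. -/
def FinTypes (L : FirstOrder.Language.{0, 0}) (M : Type) [L.Structure M] : Prop :=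
  ∀ (ι : Type) [Finite ι], ∃ (F : Type) (_ : Finite F) (inv : (ι → M) → F),
      ∀ x y : ι → M, inv x = inv y → ∀ φ : L.Formula ι, (φ.Realize x ↔ φ.Realize y)

variable {M N}

theorem transfer (hMN : ∀ φ : L.Sentence, M ⊨ φ ↔ N ⊨ φ) {ι : Type} [Finite ι]
    (φ : L.Formula ι) : (∀ x : ι → M, φ.Realize x) ↔ (∀ z : ι → N, φ.Realize z) := by
  have key : ∀ (K : Type) [L.Structure K], (K ⊨ ((φ.relabel Sum.inr : L.Formula (Empty ⊕ ι)).iAlls ι
      : L.Formula Empty)) ↔ ∀ x : ι → K, φ.Realize x := by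
    intro K _
    change Formula.Realize _ _ ↔ _
    rw [Formula.realize_iAlls]
    apply forall_congr'
    intro x
    rw [Formula.realize_relabel]
    rfl
  rw [← key M, ← key N]
  exact hMN _

theorem transfer_imp (hMN : ∀ φ : L.Sentence, M ⊨ φ ↔ N ⊨ φ) {ι : Type} [Finite ι]
    {θ φ : L.Formula ι} (h : ∀ x : ι → M, θ.Realize x → φ.Realize x) (z : ι → N)
    (hz : θ.Realize z) : φ.Realize z := by
  have := (transfer hMN (θ.imp φ)).1 (fun x => by
    rw [Formula.realize_imp]; exact h x) z
  rw [Formula.realize_imp] at this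
  exact this hz

theorem isolate (hfin : FinTypes L M) {ι : Type} [Finite ι] (x : ι → M) :
    ∃ θ : L.Formula ι, θ.Realize x ∧ ∀ y : ι → M, θ.Realize y →
      ∀ φ : L.Formula ι, (φ.Realize x ↔ φ.Realize y) := by
  obtain ⟨F, hF, inv, hinv⟩ := hfin ι
  have key : ∀ c : F, ∃ ψ : L.Formula ι, ψ.Realize x ∧ ∀ y : ι → M, inv y = c → ψ.Realize y →
      ∀ φ : L.Formula ι, (φ.Realize x ↔ φ.Realize y) := by
    intro c
    by_cases h : ∃ ψ : L.Formula ι, ψ.Realize x ∧ ∃ y, inv y = c ∧ ¬ ψ.Realize y
    · obtain ⟨ψ, hψ, y, hy, hψy⟩ := h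
      refine ⟨ψ, hψ, fun z hz hψz => ?_⟩
      exact absurd ((hinv y z (hy.trans hz.symm) ψ).2 hψz) hψy
    · push Not at h
      refine ⟨⊤, by simp, fun y hy _ φ => ⟨fun hφ => h φ hφ y hy, fun hφ => ?_⟩⟩
      by_contra hc
      exact (h φ.not (by rwa [Formula.realize_not]) y hy) hφ
  choose ψ h1 h2 using key
  refine ⟨Formula.iInf ψ, ?_, ?_⟩
  · rw [Formula.realize_iInf]
    exact h1
  · intro y hy
    rw [Formula.realize_iInf] at hy
    exact h2 (inv y) y rfl (hy _)

theorem same_type (hMN : ∀ φ : L.Sentence, M ⊨ φ ↔ N ⊨ φ) {ι : Type} [Finite ι]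
    {x : ι → M} {θ : L.Formula ι}
    (h : ∀ y : ι → M, θ.Realize y → ∀ φ : L.Formula ι, (φ.Realize x ↔ φ.Realize y)) (z : ι → N)
    (hz : θ.Realize z) (φ : L.Formula ι) : φ.Realize x ↔ φ.Realize z := by
  constructor
  · intro hφ
    exact transfer_imp hMN (fun y hy => (h y hy φ).1 hφ) z hz
  · intro hφ
    by_contra hc
    have : (φ.not).Realize z := transfer_imp hMN (fun y hy => by
      rw [Formula.realize_not]
      exact fun h' => hc ((h y hy φ).2 h')) z hz
    rw [Formula.realize_not] at this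
    exact this hφ

theorem atomic (hfin : FinTypes L M) (hMN : ∀ φ : L.Sentence, M ⊨ φ ↔ N ⊨ φ) {ι : Type}
    [Finite ι] (z : ι → N) : ∃ x : ι → M, ∀ φ : L.Formula ι, (φ.Realize x ↔ φ.Realize z) := by
  obtain ⟨F, hF, inv, hinv⟩ := hfin ι
  choose θ h1 h2 using (isolate (L := L) hfin (ι := ι))
  let F' : Type := {c : F // ∃ x : ι → M, inv x = c}
  let r : F' → ι → M := fun c => c.2.choose
  have hr : ∀ c, inv (r c) = c.1 := fun c => c.2.choose_spec
  have hall : ∀ x : ι → M, (Formula.iSup (fun c => θ (r c)) : L.Formula ι).Realize x := by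
    intro x
    rw [Formula.realize_iSup]
    refine ⟨⟨inv x, x, rfl⟩, ?_⟩
    exact (hinv _ _ (hr _) _).1 (h1 _)
  have := (transfer hMN _).1 hall z
  rw [Formula.realize_iSup] at this
  obtain ⟨c, hc⟩ := this
  exact ⟨r c, fun φ => same_type hMN (h2 (r c)) z hc φ⟩

/-- A finite set of pairs is an elementary partial map. -/
def PP (L : FirstOrder.Language.{0, 0}) [L.Structure M] [L.Structure N] (S : Finset (M × N)) :
    Prop :=
  ∀ φ : L.Formula ↥S, (φ.Realize (fun p => p.1.1) ↔ φ.Realize (fun p => p.1.2))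

theorem PP_insert {S : Finset (M × N)} {a : M} {b : N} [DecidableEq (M × N)]
    (h : ∀ φ : L.Formula (↥S ⊕ Unit),
      (φ.Realize (Sum.elim (fun p => p.1.1) (fun _ => a)) ↔
        φ.Realize (Sum.elim (fun p => p.1.2) (fun _ => b)))) : PP L (insert (a, b) S) := by
  classical
  intro φ
  let g : ↥(insert (a, b) S) → ↥S ⊕ Unit := fun p =>
    if hp : p.1 ∈ S then Sum.inl ⟨p.1, hp⟩ else Sum.inr ()
  have h0 : ∀ p : ↥(insert (a, b) S), p.1 ∉ S → p.1 = (a, b) := by
    intro p hp
    rcases Finset.mem_insert.1 p.2 with h | h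
    · exact h
    · exact absurd h hp
  have e1 : (fun p : ↥(insert (a, b) S) => p.1.1) =
      (Sum.elim (fun p => p.1.1) (fun _ => a) : ↥S ⊕ Unit → M) ∘ g := by
    funext p
    by_cases hp : p.1 ∈ S
    · simp [g, hp]
    · simp only [g, hp, Function.comp, dite_false, Sum.elim_inr]
      rw [h0 p hp]
  have e2 : (fun p : ↥(insert (a, b) S) => p.1.2) =
      (Sum.elim (fun p => p.1.2) (fun _ => b) : ↥S ⊕ Unit → N) ∘ g := by
    funext p
    by_cases hp : p.1 ∈ S
    · simp [g, hp]
    · simp only [g, hp, Function.comp, dite_false, Sum.elim_inr]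
      rw [h0 p hp]
  rw [e1, e2, ← Formula.realize_relabel, ← Formula.realize_relabel]
  exact h _

theorem forth (hfin : FinTypes L M) (hMN : ∀ φ : L.Sentence, M ⊨ φ ↔ N ⊨ φ)
    [DecidableEq (M × N)] {S : Finset (M × N)} (hS : PP L S) (a : M) :
    ∃ b, PP L (insert (a, b) S) := by
  obtain ⟨θ, h1, h2⟩ := isolate hfin (ι := ↥S ⊕ Unit) (Sum.elim (fun p => p.1.1) (fun _ => a))
  have : (θ.iExs Unit).Realize (fun p : ↥S => p.1.1) := by
    rw [Formula.realize_iExs]
    exact ⟨fun _ => a, h1⟩
  rw [hS, Formula.realize_iExs] at this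
  obtain ⟨b, hb⟩ := this
  have hb' : b = fun _ => b () := by funext u; cases u; rfl
  rw [hb'] at hb
  exact ⟨b (), PP_insert (fun φ => same_type hMN h2 _ hb φ)⟩

theorem back (hfin : FinTypes L M) (hMN : ∀ φ : L.Sentence, M ⊨ φ ↔ N ⊨ φ)
    [DecidableEq (M × N)] {S : Finset (M × N)} (hS : PP L S) (b : N) :
    ∃ a, PP L (insert (a, b) S) := by
  obtain ⟨x, hx⟩ := atomic hfin hMN (ι := ↥S ⊕ Unit) (Sum.elim (fun p => p.1.2) (fun _ => b))
  obtain ⟨θ, h1, h2⟩ := isolate hfin x
  have h3 := (hx θ).1 h1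
  have : (θ.iExs Unit).Realize (fun p : ↥S => p.1.2) := by
    rw [Formula.realize_iExs]
    exact ⟨fun _ => b, h3⟩
  rw [← hS, Formula.realize_iExs] at this
  obtain ⟨a, ha⟩ := this
  have ha' : a = fun _ => a () := by funext u; cases u; rfl
  rw [ha'] at ha
  refine ⟨a (), PP_insert (fun φ => ?_)⟩
  rw [← h2 _ ha φ]
  exact hx φ

theorem iso [L.IsRelational] [Countable M] [Countable N] (hfin : FinTypes L M)
    (hMN : ∀ φ : L.Sentence, M ⊨ φ ↔ N ⊨ φ) : Nonempty (M ≃[L] N) := by
  classical
  haveI := Encodable.ofCountable M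
  haveI := Encodable.ofCountable N
  let P : Type := {S : Finset (M × N) // PP L S}
  let D : M ⊕ N → Order.Cofinal P := fun c => match c with
    | Sum.inl a => ⟨{S | ∃ b, (a, b) ∈ S.1}, fun S => by
        obtain ⟨b, hb⟩ := forth hfin hMN S.2 a
        exact ⟨⟨_, hb⟩, ⟨b, Finset.mem_insert_self _ _⟩, Finset.subset_insert _ _⟩⟩
    | Sum.inr b => ⟨{S | ∃ a, (a, b) ∈ S.1}, fun S => by
        obtain ⟨a, ha⟩ := back hfin hMN S.2 b
        exact ⟨⟨_, ha⟩, ⟨a, Finset.mem_insert_self _ _⟩, Finset.subset_insert _ _⟩⟩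
  have h0 : PP L (∅ : Finset (M × N)) := by
    intro φ
    have := transfer hMN φ
    constructor
    · intro h
      exact this.1 (fun x => by
        convert h using 1
        funext p
        exact absurd p.2 (Finset.notMem_empty _)) _
    · intro h
      exact this.2 (fun x => by
        convert h using 1
        funext p
        exact absurd p.2 (Finset.notMem_empty _)) _
  let I := Order.idealOfCofinals (⟨∅, h0⟩ : P) D
  have hL : ∀ a : M, ∃ b, ∃ S : P, S ∈ I ∧ (a, b) ∈ S.1 := by
    intro a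
    obtain ⟨S, ⟨b, hb⟩, hS⟩ := Order.cofinal_meets_idealOfCofinals (⟨∅, h0⟩ : P) D (Sum.inl a)
    exact ⟨b, S, hS, hb⟩
  have hR : ∀ b : N, ∃ a, ∃ S : P, S ∈ I ∧ (a, b) ∈ S.1 := by
    intro b
    obtain ⟨S, ⟨a, ha⟩, hS⟩ := Order.cofinal_meets_idealOfCofinals (⟨∅, h0⟩ : P) D (Sum.inr b)
    exact ⟨a, S, hS, ha⟩
  choose f hf using hL
  -- finitely many pairs lie in a common member
  have hfinite : ∀ (n : ℕ) (p : Fin n → M × N), (∀ i, ∃ S : P, S ∈ I ∧ p i ∈ S.1) →
      ∃ S : P, S ∈ I ∧ ∀ i, p i ∈ S.1 := by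
    intro n
    induction n with
    | zero =>
      intro p _
      exact ⟨⟨∅, h0⟩, Order.mem_idealOfCofinals _ _, fun i => i.elim0⟩
    | succ n ih =>
      intro p hp
      obtain ⟨S, hS, hSp⟩ := ih (fun i => p i.castSucc) (fun i => hp _)
      obtain ⟨S', hS', hSp'⟩ := hp (Fin.last n)
      obtain ⟨S'', hS'', h1, h2⟩ := I.directed S hS S' hS'
      refine ⟨S'', hS'', fun i => ?_⟩
      refine Fin.lastCases ?_ (fun i => ?_) i
      · exact h2 hSp'
      · exact h1 (hSp i)
  have hpres : ∀ (n : ℕ) (p : Fin n → M × N), (∀ i, ∃ S : P, S ∈ I ∧ p i ∈ S.1) →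
      ∀ φ : L.Formula (Fin n), (φ.Realize (fun i => (p i).1) ↔ φ.Realize (fun i => (p i).2)) := by
    intro n p hp φ
    obtain ⟨S, -, hS⟩ := hfinite n p hp
    have := S.2 (φ.relabel (fun i => (⟨p i, hS i⟩ : ↥S.1)))
    rw [Formula.realize_relabel, Formula.realize_relabel] at this
    exact this
  have hfun : ∀ a b a' b', (∃ S : P, S ∈ I ∧ (a, b) ∈ S.1) → (∃ S : P, S ∈ I ∧ (a', b') ∈ S.1) →
      (a = a' ↔ b = b') := by
    intro a b a' b' h h'
    have := hpres 2 ![(a, b), (a', b')] (by
      intro i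
      fin_cases i
      · exact h
      · exact h') ((Term.var (0 : Fin 2)).equal (Term.var (1 : Fin 2)))
    simpa [Formula.realize_equal] using this
  have hinj : Function.Injective f := fun a a' h => (hfun a (f a) a' (f a') (hf a) (hf a')).2 h
  have hsurj : Function.Surjective f := by
    intro b
    obtain ⟨a, ha⟩ := hR b
    exact ⟨a, (hfun a (f a) a b (hf a) ha).1 rfl⟩
  refine ⟨{ toEquiv := Equiv.ofBijective f ⟨hinj, hsurj⟩, map_fun' := ?_, map_rel' := ?_ }⟩
  · intro n g
    exact isEmptyElim g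
  · intro n r x
    have := hpres n (fun i => (x i, f (x i))) (fun i => hf _)
      (r.formula (fun i => Term.var i))
    rw [Formula.realize_rel, Formula.realize_rel] at this
    exact this.symm

end RN


theorem RN.categorical {L : FirstOrder.Language.{0, 0}} [L.IsRelational] {M : Type}
    [L.Structure M] [Countable M] (hfin : RN.FinTypes L M) : OmegaCategorical L M := by
  intro M₁ M₂ h₁ h₂
  have e : ∀ K : (L.completeTheory M).ModelType, Cardinal.mk K = Cardinal.aleph0 →
      Nonempty (M ≃[L] K) := by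
    intro K hK
    haveI : Countable K := Cardinal.mk_le_aleph0_iff.1 hK.le
    exact RN.iso hfin (fun φ => (realize_iff_of_model_completeTheory M K φ).symm)
  obtain ⟨e₁⟩ := e M₁ h₁
  obtain ⟨e₂⟩ := e M₂ h₂
  exact ⟨e₂.comp e₁.symm⟩

/-- If arbitrary sign patterns of a sequence of formulas are finitely realised, then the theory
is not countably categorical. -/
theorem not_categorical {L : FirstOrder.Language.{0, 0}} [Countable L.Symbols] (M : Type)
    [L.Structure M] [Countable M] [Infinite M] {ι : Type} [Finite ι] (φ : ℕ → L.Formula ι)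
    (h : ∀ (s : ℕ → Bool) (k : ℕ), ∃ x : ι → M, ∀ j < k, ((φ j).Realize x ↔ s j = true)) :
    ¬ OmegaCategorical L M := by
  intro hcat
  have hM : Cardinal.mk M = Cardinal.aleph0 := Cardinal.mk_eq_aleph0 M
  have key : ∀ s : ℕ → Bool, ∃ x : ι → M, ∀ j, ((φ j).Realize x ↔ s j = true) := by
    intro s
    choose x hx using h s
    let u : Ultrafilter ℕ := Filter.hyperfilter ℕ
    let N : Type := (u : Filter ℕ).Product (fun _ => M)
    let y : ι → N := fun i => ((fun k => x k i : ℕ → M) : (u : Filter ℕ).Product (fun _ => M))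
    have hy : ∀ j, ((φ j).Realize y ↔ s j = true) := by
      intro j
      have h1 := Ultraproduct.realize_formula_cast (M := fun _ : ℕ => M) (u := u) (φ j)
        (fun i k => x k i)
      have h2 : ∀ᶠ k in (u : Filter ℕ), ((φ j).Realize (fun i => x k i) ↔ s j = true) := by
        have h3 : ∀ᶠ k in (u : Filter ℕ), j < k := by
          have : ∀ᶠ k in (Filter.cofinite : Filter ℕ), j < k := by
            rw [Nat.cofinite_eq_atTop]
            exact Filter.eventually_gt_atTop j
          exact (Filter.hyperfilter_le_cofinite) this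
        filter_upwards [h3] with k hk
        exact hx k j hk
      constructor
      · intro h4
        obtain ⟨k, hk⟩ := ((h1.1 h4).and h2).exists
        exact hk.2.1 hk.1
      · intro h4
        exact h1.2 (h2.mono fun k hk => hk.2 h4)
    have hMN : M ≅[L] N := by
      rw [elementarilyEquivalent_iff]
      intro ψ
      have := Ultraproduct.sentence_realize (M := fun _ : ℕ => M) (u := u) ψ
      rw [Filter.eventually_const] at this
      exact this.symm
    have hNinf : Infinite N := hMN.infinite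
    obtain ⟨S, hS1, hS2⟩ := exists_elementarySubstructure_card_eq L (Set.range y)
      Cardinal.aleph0 le_rfl (by
        rw [Cardinal.lift_id, Cardinal.lift_id]
        exact Cardinal.mk_le_aleph0_iff.2 (Set.finite_range y).countable.to_subtype)
      (by
        rw [Cardinal.lift_id, Cardinal.lift_id]
        exact Cardinal.mk_le_aleph0)
      (by
        rw [Cardinal.lift_id, Cardinal.lift_id]
        exact Cardinal.aleph0_le_mk N)
    rw [Cardinal.lift_id, Cardinal.lift_id] at hS2
    have hS2' : Cardinal.mk S = Cardinal.aleph0 := hS2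
    have hSM : (S : Type) ⊨ L.completeTheory M := by
      have h1 : L.completeTheory M = L.completeTheory S :=
        (hMN.trans S.elementarilyEquivalent.symm).completeTheory_eq
      rw [h1]
      infer_instance
    have hSne : Nonempty S := by
      rw [← Cardinal.mk_ne_zero_iff, hS2']
      exact Cardinal.aleph0_ne_zero
    obtain ⟨e⟩ := hcat (Theory.ModelType.of (L.completeTheory M) S)
      (Theory.ModelType.of (L.completeTheory M) M) hS2' hM
    have e' : S ≃[L] M := e
    let y' : ι → S := fun i => ⟨y i, hS1 ⟨i, rfl⟩⟩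
    refine ⟨fun i => e' (y' i), fun j => ?_⟩
    rw [← hy j]
    have h1 := StrongHomClass.realize_formula e' (φ j) (v := y')
    have h2 := S.subtype.map_formula (φ j) y'
    exact h1.trans h2.symm
  choose x hx using key
  have hinj : Function.Injective x := by
    intro s t hst
    funext j
    have h1 := hx s j
    have h2 := hx t j
    rw [hst, h2] at h1
    rcases hs : s j with _ | _ <;> rcases ht : t j with _ | _ <;> simp_all
  have h2 : Cardinal.mk (ℕ → Bool) = 2 ^ Cardinal.aleph0 := by simp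
  have hc : Countable (ℕ → Bool) := hinj.countable
  have : Cardinal.mk (ℕ → Bool) ≤ Cardinal.aleph0 := Cardinal.mk_le_aleph0
  rw [h2] at this
  exact absurd this (not_le.2 (Cardinal.cantor _))


/-- A cut of a tower together with its levels. -/
structure Cut {Q : Type} [LinearOrder Q] (T : Tower Q) where
  U : Set Q
  i : Q → Q
  lower : ∀ x ∈ U, ∀ y, y < x → y ∈ U
  ne : U.Nonempty
  i_mem : ∀ x ∈ U, i x ∈ U
  i_spec : ∀ x ∈ U, ∃ z ∈ U, x < z ∧ ∀ z' ∈ U, z ≤ z' → T.v x z' = i x
  i_surj : ∀ j ∈ U, ∃ x ∈ U, i x = j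

namespace Cut

variable {Q : Type} [LinearOrder Q] {T : Tower Q} (C : Cut T)

@[reducible] def str : (LT.sum LP).Structure Q :=
  letI := T.str
  expand LT C.U

/-- Definable relations (no parameters). -/
def Df {α : Type} (P : (α → Q) → Prop) : Prop :=
  letI := C.str
  ∃ φ : (LT.sum LP).Formula α, ∀ w, φ.Realize w ↔ P w

variable {C}

theorem Df.not {α : Type} {P : (α → Q) → Prop} (h : C.Df P) : C.Df (fun v => ¬ P v) := by
  let _ := C.str
  obtain ⟨φ, hφ⟩ := h
  exact ⟨φ.not, fun v => by rw [Formula.realize_not, hφ]⟩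

theorem Df.and {α : Type} {P R : (α → Q) → Prop} (hP : C.Df P) (hR : C.Df R) :
    C.Df (fun v => P v ∧ R v) := by
  let _ := C.str
  obtain ⟨φ, hφ⟩ := hP
  obtain ⟨ψ, hψ⟩ := hR
  exact ⟨φ ⊓ ψ, fun v => by rw [Formula.realize_inf, hφ, hψ]⟩

theorem Df.congr {α : Type} {P R : (α → Q) → Prop} (hP : C.Df P) (h : ∀ v, P v ↔ R v) :
    C.Df R := by
  obtain ⟨φ, hφ⟩ := hP
  exact ⟨φ, fun v => (hφ v).trans (h v)⟩

theorem Df.or {α : Type} {P R : (α → Q) → Prop} (hP : C.Df P) (hR : C.Df R) :
    C.Df (fun v => P v ∨ R v) := (hP.not.and hR.not).not.congr (fun v => by tauto)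

theorem Df.imp {α : Type} {P R : (α → Q) → Prop} (hP : C.Df P) (hR : C.Df R) :
    C.Df (fun v => P v → R v) := (hP.and hR.not).not.congr (fun v => by tauto)

theorem Df.sub {α β : Type} {P : (α → Q) → Prop} (hP : C.Df P) (g : α → β) :
    C.Df (fun w : β → Q => P (fun a => w (g a))) := by
  let _ := C.str
  obtain ⟨φ, hφ⟩ := hP
  exact ⟨φ.relabel g, fun v => by rw [Formula.realize_relabel, hφ]; rfl⟩

theorem Df.ex {α : Type} {P : (Option α → Q) → Prop} (hP : C.Df P) :
    C.Df (fun w : α → Q => ∃ q, P (fun o => o.elim q w)) := by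
  let _ := C.str
  obtain ⟨φ, hφ⟩ := hP
  refine ⟨(φ.relabel (fun o : Option α => (o.elim (Sum.inr ()) Sum.inl : α ⊕ Unit))).iExs Unit,
    fun w => ?_⟩
  rw [Formula.realize_iExs]
  have hfun : ∀ i : Unit → Q, (Sum.elim w i ∘ (fun o : Option α =>
      (o.elim (Sum.inr ()) Sum.inl : α ⊕ Unit))) = (fun o => o.elim (i ()) w) := by
    intro i
    funext o
    cases o <;> rfl
  constructor
  · rintro ⟨i, hi⟩
    rw [Formula.realize_relabel, hφ, hfun] at hi
    exact ⟨i (), hi⟩
  · rintro ⟨q, hq⟩
    refine ⟨fun _ => q, ?_⟩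
    rw [Formula.realize_relabel, hφ, hfun]
    exact hq

theorem Df.all {α : Type} {P : (Option α → Q) → Prop} (hP : C.Df P) :
    C.Df (fun w : α → Q => ∀ q, P (fun o => o.elim q w)) :=
  hP.not.ex.not.congr (fun v => by push Not; rfl)

theorem Df.eq {α : Type} (a b : α) : C.Df (fun w : α → Q => w a = w b) := by
  let _ := C.str
  exact ⟨(Term.var a).equal (Term.var b), fun v => by rw [Formula.realize_equal]; rfl⟩

theorem Df.rel {α : Type} (k : ℕ) (g : Fin (ar k) → α) :
    C.Df (fun w : α → Q => T.RR k (fun i => w (g i))) := by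
  let _ := C.str
  let R : (LT.sum LP).Relations (ar k) := Sum.inl (TRel.R k)
  exact ⟨R.formula (fun i => Term.var (g i)), fun v => by rw [Formula.realize_rel]; rfl⟩

theorem Df.mem {α : Type} (a : α) : C.Df (fun w : α → Q => w a ∈ C.U) := by
  let _ := C.str
  let R : (LT.sum LP).Relations 1 := Sum.inr PRel.U
  exact ⟨R.formula (fun _ => Term.var a), fun v => by rw [Formula.realize_rel]; rfl⟩

theorem Df.lt {α : Type} (a b : α) : C.Df (fun w : α → Q => w a < w b) :=
  (Df.rel 0 ![a, b]).congr (fun _ => Iff.rfl)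

theorem Df.vlt {α : Type} (a b c d : α) : C.Df (fun w : α → Q => (w a ≠ w b ∧ w c ≠ w d) ∧
    T.v (w a) (w b) < T.v (w c) (w d)) := by
  refine (Df.rel (C := C) 1 ![a, c, b, d]).congr (fun w => ?_)
  change ((∀ i : Fin 2, w ((![a, c, b, d] : Fin 4 → α) (Fin.castAdd 2 i)) ≠
    w ((![a, c, b, d] : Fin 4 → α) (Fin.natAdd 2 i))) ∧ T.v (w a) (w b) < T.v (w c) (w d)) ↔ _
  apply and_congr_left
  intro _
  constructor
  · intro h
    exact ⟨h 0, h 1⟩
  · rintro ⟨h1, h2⟩ i
    fin_cases i
    · exact h1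
    · exact h2

/-- The value of a relation at the level `i y` as an eventual value. -/
theorem eventual {y : Q} (hy : y ∈ C.U) (R : Q → Prop) (c : Prop)
    (h : ∃ z ∈ C.U, ∀ t ∈ C.U, z ≤ t → (R t ↔ c)) :
    (∃ t ∈ C.U, y < t ∧ ∀ t' ∈ C.U, t ≤ t' → R t') ↔ c := by
  obtain ⟨z, hz, h⟩ := h
  constructor
  · rintro ⟨t, ht, -, h2⟩
    rcases le_total t z with h3 | h3
    · exact (h z hz le_rfl).1 (h2 z hz h3)
    · exact (h t ht h3).1 (h2 t ht le_rfl)
  · intro hc
    obtain ⟨z', hz', hyz, -⟩ := C.i_spec y hy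
    rcases le_total z z' with h3 | h3
    · exact ⟨z', hz', hyz, fun t ht htt => (h t ht (h3.trans htt)).2 hc⟩
    · exact ⟨z, hz, hyz.trans_le h3, fun t ht htt => (h t ht htt).2 hc⟩

theorem nomax {x : Q} (hx : x ∈ C.U) : ∃ y ∈ C.U, x < y := by
  obtain ⟨z, hz, h, -⟩ := C.i_spec x hx
  exact ⟨z, hz, h⟩

/-- eventual quantifier is definable -/
theorem Df.ev {α : Type} (b : α) {P : (Option α → Q) → Prop} (hP : C.Df P) :
    C.Df (fun w : α → Q => ∃ t ∈ C.U, w b < t ∧ ∀ t' ∈ C.U, t ≤ t' →
      P (fun o => o.elim t' w)) := by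
  -- variables: none = t', some none = t, some (some a) = a
  have h1 : C.Df (fun w : Option (Option α) → Q => w none ∈ C.U →
      (¬ w none < w (some none) → P (fun o => w (o.elim none (fun a => some (some a)))))) :=
    (Df.mem none).imp ((Df.lt none (some none)).not.imp (hP.sub _))
  have h2 := h1.all
  have h3 : C.Df (fun w : Option α → Q => w none ∈ C.U ∧ (w (some b) < w none ∧
      ∀ q, (q ∈ C.U → (¬ q < w none → P (fun o => o.elim q (fun a => w (some a))))))) := by
    refine (Df.mem none).and ((Df.lt _ _).and (h2.congr (fun w => ?_)))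
    apply forall_congr'
    intro q
    apply imp_congr_right
    intro _
    apply imp_congr_right
    intro _
    apply iff_of_eq
    congr 1
    funext o
    cases o <;> rfl
  refine h3.ex.congr (fun w => ?_)
  constructor
  · rintro ⟨t, ht, ht2, h⟩
    exact ⟨t, ht, ht2, fun t' ht' htt => h t' ht' (not_lt.2 htt)⟩
  · rintro ⟨t, ht, ht2, h⟩
    exact ⟨t, ht, ht2, fun t' ht' htt => h t' ht' (not_lt.1 htt)⟩

/-- `v x y ∈ U` is definable. -/
theorem v_mem_iff (c : Q) : c ∈ C.U ↔ ∃ z ∈ C.U, ∃ t ∈ C.U, z < t ∧ ∀ t' ∈ C.U, t ≤ t' →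
    c < T.v z t' := by
  have hev : ∀ z ∈ C.U, ((∃ t ∈ C.U, z < t ∧ ∀ t' ∈ C.U, t ≤ t' → c < T.v z t') ↔ c < C.i z) := by
    intro z hz
    apply eventual hz
    obtain ⟨z', hz', -, h⟩ := C.i_spec z hz
    exact ⟨z', hz', fun t ht htt => by rw [h t ht htt]⟩
  constructor
  · intro hc
    obtain ⟨j, hj, hcj⟩ := nomax hc
    obtain ⟨z, hz, rfl⟩ := C.i_surj j hj
    exact ⟨z, hz, (hev z hz).2 hcj⟩
  · rintro ⟨z, hz, h⟩
    exact C.lower _ (C.i_mem z hz) _ ((hev z hz).1 h)

theorem Df.vmem {α : Type} (a b : α) : C.Df (fun w : α → Q => w a ≠ w b ∧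
    T.v (w a) (w b) ∈ C.U) := by
  have h1 : C.Df (fun w : Option (Option α) → Q => (w (some (some a)) ≠ w (some (some b)) ∧
    w (some none) ≠ w none) ∧ T.v (w (some (some a))) (w (some (some b))) <
      T.v (w (some none)) (w none)) := Df.vlt _ _ _ _
  have h2 := ((Df.mem (C := C) (none : Option α)).and (Df.ev (none : Option α) h1)).ex
  refine ((Df.eq a b).not.and h2).congr (fun w => ?_)
  apply and_congr_right
  intro hab
  rw [v_mem_iff (C := C) (T.v (w a) (w b))]
  constructor
  · rintro ⟨z, hz, t, ht, hzt, h⟩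
    exact ⟨z, hz, t, ht, hzt, fun t' ht' htt => (h t' ht' htt).2⟩
  · rintro ⟨z, hz, t, ht, hzt, h⟩
    exact ⟨z, hz, t, ht, hzt, fun t' ht' htt => ⟨⟨hab, (hzt.trans_le htt).ne⟩, h t' ht' htt⟩⟩

end Cut

namespace Tower

variable {Q : Type} [LinearOrder Q] (T : Tower Q)

theorem v_surj (y p : Q) : ∃ x, x < y ∧ T.v x y = p := by
  obtain ⟨x, -, hx⟩ := T.ext p ∅ {y} (by
    intro b hb c hc hbc
    simp only [Finset.empty_union, Finset.mem_singleton] at hb hc
    exact absurd (hb.trans hc.symm) hbc) (by simp)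
  exact ⟨x, hx y (by simp)⟩

end Tower

namespace Cut

variable {Q : Type} [LinearOrder Q] {T : Tower Q} {C : Cut T}

/-- Translation of a formula to the levels of pairs. -/
theorem trans {α : Type} {n : ℕ} (φ : (LT.sum LP).BoundedFormula α n) :
    letI := C.str
    ∃ P : ((α ⊕ Fin n) × Bool → Q) → Prop, C.Df P ∧
      ∀ w : (α ⊕ Fin n) × Bool → Q, (∀ a, w (a, false) ≠ w (a, true)) →
      (P w ↔ φ.Realize (fun a => T.v (w (Sum.inl a, false)) (w (Sum.inl a, true)))
        (fun i => T.v (w (Sum.inr i, false)) (w (Sum.inr i, true)))) := by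
  let _ := C.str
  have hval : ∀ {n : ℕ} (w : (α ⊕ Fin n) × Bool → Q) (c : α ⊕ Fin n),
      Sum.elim (fun a => T.v (w (Sum.inl a, false)) (w (Sum.inl a, true)))
        (fun i => T.v (w (Sum.inr i, false)) (w (Sum.inr i, true))) c =
      T.v (w (c, false)) (w (c, true)) := by
    intro n w c
    cases c <;> rfl
  induction φ with
  | falsum => exact ⟨fun _ => False, ⟨⊥, fun w => by simp⟩, fun w _ => by
      simp [BoundedFormula.Realize]⟩
  | @equal n t₁ t₂ =>
    obtain ⟨a, rfl⟩ := Tower.term_var t₁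
    obtain ⟨b, rfl⟩ := Tower.term_var t₂
    refine ⟨_, (Df.vlt (C := C) (a, false) (a, true) (b, false) (b, true)).not.and
      (Df.vlt (C := C) (b, false) (b, true) (a, false) (a, true)).not, ?_⟩
    intro w hw
    simp only [BoundedFormula.Realize, Term.realize_var, hval]
    constructor
    · rintro ⟨h1, h2⟩
      exact le_antisymm (not_lt.1 fun h => h2 ⟨⟨hw b, hw a⟩, h⟩)
        (not_lt.1 fun h => h1 ⟨⟨hw a, hw b⟩, h⟩)
    · intro h
      rw [h]
      exact ⟨fun h => lt_irrefl _ h.2, fun h => lt_irrefl _ h.2⟩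
  | @rel n l R ts =>
    have ht : ∀ i, ∃ a, ts i = Term.var a := fun i => Tower.term_var (ts i)
    choose a ha using ht
    rcases R with R | R
    · cases R with
      | R k =>
        refine ⟨_, Df.rel (C := C) (k + 1)
          (fun i => (Fin.addCases (fun i => (a i, false)) (fun i => (a i, true)) i :
            (α ⊕ Fin n) × Bool)), ?_⟩
        intro w hw
        simp only [BoundedFormula.Realize, ha, Term.realize_var, hval]
        have e1 : ∀ i : Fin (ar k), (Fin.addCases (fun i => (a i, false)) (fun i => (a i, true))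
            (Fin.castAdd (ar k) i) : (α ⊕ Fin n) × Bool) = (a i, false) :=
          fun i => Fin.addCases_left i
        have e2 : ∀ i : Fin (ar k), (Fin.addCases (fun i => (a i, false)) (fun i => (a i, true))
            (Fin.natAdd (ar k) i) : (α ⊕ Fin n) × Bool) = (a i, true) :=
          fun i => Fin.addCases_right i
        change ((∀ i : Fin (ar k), w (Fin.addCases (fun i => (a i, false)) (fun i => (a i, true))
            (Fin.castAdd (ar k) i)) ≠ w (Fin.addCases (fun i => (a i, false))
              (fun i => (a i, true)) (Fin.natAdd (ar k) i))) ∧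
          T.RR k (fun i => T.v (w (Fin.addCases (fun i => (a i, false)) (fun i => (a i, true))
            (Fin.castAdd (ar k) i))) (w (Fin.addCases (fun i => (a i, false))
              (fun i => (a i, true)) (Fin.natAdd (ar k) i))))) ↔
          T.RR k (fun i => T.v (w (a i, false)) (w (a i, true)))
        simp only [e1, e2]
        exact ⟨fun h => h.2, fun h => ⟨fun i => hw _, h⟩⟩
    · cases R with
      | U =>
        refine ⟨_, Df.vmem (C := C) (a 0, false) (a 0, true), ?_⟩
        intro w hw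
        simp only [BoundedFormula.Realize, ha, Term.realize_var, hval]
        exact ⟨fun h => h.2, fun h => ⟨hw _, h⟩⟩
  | imp φ ψ ih1 ih2 =>
    obtain ⟨P1, hP1, h1⟩ := ih1
    obtain ⟨P2, hP2, h2⟩ := ih2
    refine ⟨_, hP1.imp hP2, fun w hw => ?_⟩
    rw [BoundedFormula.realize_imp, h1 w hw, h2 w hw]
  | @all n φ ih =>
    obtain ⟨P, hP, h⟩ := ih
    let ρ : (α ⊕ Fin (n + 1)) × Bool → Option (Option ((α ⊕ Fin n) × Bool)) := fun p =>
      match p.1 with
      | Sum.inl a => some (some (Sum.inl a, p.2))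
      | Sum.inr i => Fin.lastCases (cond p.2 none (some none))
          (fun i => some (some (Sum.inr i, p.2))) i
    have h1 : C.Df (fun w : Option (Option ((α ⊕ Fin n) × Bool)) → Q =>
        ¬ w (some none) = w none → P (fun a => w (ρ a))) := (Df.eq _ _).not.imp (hP.sub ρ)
    refine ⟨_, h1.all.all, fun w hw => ?_⟩
    rw [BoundedFormula.realize_all]
    have key : ∀ a b : Q, a ≠ b →
        (P (fun c => (fun o : Option (Option ((α ⊕ Fin n) × Bool)) =>
          o.elim b (fun o' => o'.elim a w)) (ρ c)) ↔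
          φ.Realize (fun a => T.v (w (Sum.inl a, false)) (w (Sum.inl a, true)))
            (Fin.snoc (fun i => T.v (w (Sum.inr i, false)) (w (Sum.inr i, true))) (T.v a b))) := by
      intro a b hab
      rw [h]
      · apply iff_of_eq
        congr 1
        funext i
        refine Fin.lastCases ?_ (fun i => ?_) i
        · simp [ρ]
        · simp [ρ]
      · rintro (c | c)
        · exact hw (Sum.inl c)
        · refine Fin.lastCases ?_ (fun i => ?_) c
          · simpa [ρ] using hab
          · simpa [ρ] using hw (Sum.inr i)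
    constructor
    · intro hall x
      obtain ⟨a, hab, hax⟩ := T.v_surj x x
      have h2 := (key a x hab.ne).1 (hall a x hab.ne)
      rwa [hax] at h2
    · intro hall a b hab
      exact (key a b hab).2 (hall _)

variable (C) in
/-- The relations coding bits. -/
def B : ℕ → Q → Q → Prop
  | 0, x, y => T.v x y < C.i y
  | k + 1, x, y => (T.v x y < C.i y ∧ B k (T.v x y) (C.i y)) ∨
      (C.i y < T.v x y ∧ T.v x y ∈ C.U ∧ B k (C.i y) (T.v x y))

/-- A definable binary relation transferred to levels of pairs. -/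
theorem trans₂ {R : (Bool → Q) → Prop} (hR : C.Df R) :
    ∃ P : (Fin 4 → Q) → Prop, C.Df P ∧ ∀ w : Fin 4 → Q, w 0 ≠ w 1 → w 2 ≠ w 3 →
      (P w ↔ R (fun e => cond e (T.v (w 2) (w 3)) (T.v (w 0) (w 1)))) := by
  let _ := C.str
  obtain ⟨φ, hφ⟩ := hR
  obtain ⟨P, hP, h⟩ := trans (C := C) φ
  let g : (Bool ⊕ Fin 0) × Bool → Fin 4 := fun p => match p.1 with
    | Sum.inl false => cond p.2 1 0
    | Sum.inl true => cond p.2 3 2
    | Sum.inr i => i.elim0
  refine ⟨_, hP.sub g, fun w h1 h2 => ?_⟩
  rw [← hφ, h]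
  · apply iff_of_eq
    unfold Formula.Realize
    congr 1
    · funext e
      cases e <;> rfl
    · funext i; exact i.elim0
  · rintro (c | c)
    · cases c
      · exact h1
      · exact h2
    · exact c.elim0

theorem Df_B (k : ℕ) : ∃ R : (Bool → Q) → Prop, C.Df R ∧ ∀ w : Bool → Q, w false ∈ C.U →
    w true ∈ C.U → w false ≠ w true → (R w ↔ C.B k (w false) (w true)) := by
  induction k with
  | zero =>
    have h1 : C.Df (fun w : Option Bool → Q => (w (some false) ≠ w (some true) ∧
      w (some true) ≠ w none) ∧ T.v (w (some false)) (w (some true)) <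
        T.v (w (some true)) (w none)) := Df.vlt _ _ _ _
    refine ⟨_, Df.ev true h1, fun w h0 h1 hne => ?_⟩
    apply eventual h1
    obtain ⟨z, hz, hyz, h⟩ := C.i_spec _ h1
    refine ⟨z, hz, fun t ht htt => ?_⟩
    change (w false ≠ w true ∧ w true ≠ t) ∧ T.v (w false) (w true) < T.v (w true) t ↔
      T.v (w false) (w true) < C.i (w true)
    rw [h t ht htt]
    exact ⟨fun h => h.2, fun h => ⟨⟨hne, (hyz.trans_le htt).ne⟩, h⟩⟩
  | succ k ih =>
    obtain ⟨R, hR, hRB⟩ := ih
    obtain ⟨P, hP, hPR⟩ := trans₂ hR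
    -- variables: some false = x, some true = y, none = t
    have h1 : C.Df (fun w : Option Bool → Q =>
        (((w (some false) ≠ w (some true) ∧ w (some true) ≠ w none) ∧
          T.v (w (some false)) (w (some true)) < T.v (w (some true)) (w none)) ∧
          P (fun i => w ((![some false, some true, some true, none] : Fin 4 → Option Bool) i))) ∨
        (((w (some true) ≠ w none ∧ w (some false) ≠ w (some true)) ∧
          T.v (w (some true)) (w none) < T.v (w (some false)) (w (some true))) ∧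
          ((w (some false) ≠ w (some true) ∧ T.v (w (some false)) (w (some true)) ∈ C.U) ∧
          P (fun i => w ((![some true, none, some false, some true] : Fin 4 → Option Bool) i))))) :=
      ((Df.vlt _ _ _ _).and (hP.sub _)).or
        ((Df.vlt _ _ _ _).and ((Df.vmem _ _).and (hP.sub _)))
    refine ⟨_, Df.ev true h1, fun w h0 h1 hne => ?_⟩
    apply eventual h1
    obtain ⟨z, hz, hyz, h⟩ := C.i_spec _ h1
    refine ⟨z, hz, fun t ht htt => ?_⟩
    have hvt : T.v (w true) t = C.i (w true) := h t ht htt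
    have hyt : w true ≠ t := (hyz.trans_le htt).ne
    change ((((w false ≠ w true ∧ w true ≠ t) ∧ T.v (w false) (w true) < T.v (w true) t) ∧
      P (fun i => (fun o : Option Bool => o.elim t w)
        ((![some false, some true, some true, none] : Fin 4 → Option Bool) i))) ∨
      (((w true ≠ t ∧ w false ≠ w true) ∧ T.v (w true) t < T.v (w false) (w true)) ∧
        ((w false ≠ w true ∧ T.v (w false) (w true) ∈ C.U) ∧
        P (fun i => (fun o : Option Bool => o.elim t w)
          ((![some true, none, some false, some true] : Fin 4 → Option Bool) i))))) ↔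
      ((T.v (w false) (w true) < C.i (w true) ∧ C.B k (T.v (w false) (w true)) (C.i (w true))) ∨
      (C.i (w true) < T.v (w false) (w true) ∧ T.v (w false) (w true) ∈ C.U ∧
        C.B k (C.i (w true)) (T.v (w false) (w true))))
    rw [hPR _ hne hyt, hPR _ hyt hne]
    change ((((w false ≠ w true ∧ w true ≠ t) ∧ T.v (w false) (w true) < T.v (w true) t) ∧
      R (fun e => cond e (T.v (w true) t) (T.v (w false) (w true)))) ∨
      (((w true ≠ t ∧ w false ≠ w true) ∧ T.v (w true) t < T.v (w false) (w true)) ∧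
        ((w false ≠ w true ∧ T.v (w false) (w true) ∈ C.U) ∧
        R (fun e => cond e (T.v (w false) (w true)) (T.v (w true) t))))) ↔ _
    rw [hvt]
    have hi : C.i (w true) ∈ C.U := C.i_mem _ h1
    apply or_congr
    · constructor
      · rintro ⟨⟨-, h2⟩, h3⟩
        refine ⟨h2, ?_⟩
        exact (hRB _ (C.lower _ hi _ h2) hi h2.ne).1 h3
      · rintro ⟨h2, h3⟩
        refine ⟨⟨⟨hne, hyt⟩, h2⟩, ?_⟩
        exact (hRB _ (C.lower _ hi _ h2) hi h2.ne).2 h3
    · constructor
      · rintro ⟨⟨-, h2⟩, ⟨-, h3⟩, h4⟩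
        exact ⟨h2, h3, (hRB _ hi h3 h2.ne).1 h4⟩
      · rintro ⟨h2, h3, h4⟩
        exact ⟨⟨⟨hyt, hne⟩, h2⟩, ⟨hne, h3⟩, (hRB _ hi h3 h2.ne).2 h4⟩

theorem pattern (k : ℕ) : ∀ s : ℕ → Bool, ∃ x ∈ C.U, ∃ y ∈ C.U, x < y ∧
    ∀ j < k, (C.B j x y ↔ s j = true) := by
  induction k with
  | zero =>
    intro s
    obtain ⟨x, hx⟩ := C.ne
    obtain ⟨y, hy, hxy⟩ := nomax hx
    exact ⟨x, hx, y, hy, hxy, fun j hj => absurd hj (Nat.not_lt_zero _)⟩
  | succ k ih =>
    intro s
    obtain ⟨a, ha, b, hb, hab, h⟩ := ih (fun j => s (j + 1))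
    rcases hs : s 0 with _ | _
    · -- bit 0 false : i y = a, v x y = b
      obtain ⟨y, hy, hya⟩ := C.i_surj a ha
      obtain ⟨x, hxy, hv⟩ := T.v_surj y b
      refine ⟨x, C.lower y hy x hxy, y, hy, hxy, ?_⟩
      intro j hj
      cases j with
      | zero =>
        change T.v x y < C.i y ↔ s 0 = true
        rw [hya, hv, hs]
        simp [hab.le]
      | succ j =>
        change ((T.v x y < C.i y ∧ C.B j (T.v x y) (C.i y)) ∨
          (C.i y < T.v x y ∧ T.v x y ∈ C.U ∧ C.B j (C.i y) (T.v x y))) ↔ _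
        rw [hya, hv, ← h j (by omega)]
        constructor
        · rintro (h | h)
          · exact absurd h.1 (not_lt.2 hab.le)
          · exact h.2.2
        · intro h
          exact Or.inr ⟨hab, hb, h⟩
    · obtain ⟨y, hy, hya⟩ := C.i_surj b hb
      obtain ⟨x, hxy, hv⟩ := T.v_surj y a
      refine ⟨x, C.lower y hy x hxy, y, hy, hxy, ?_⟩
      intro j hj
      cases j with
      | zero =>
        change T.v x y < C.i y ↔ s 0 = true
        rw [hya, hv, hs]
        simp [hab]
      | succ j =>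
        change ((T.v x y < C.i y ∧ C.B j (T.v x y) (C.i y)) ∨
          (C.i y < T.v x y ∧ T.v x y ∈ C.U ∧ C.B j (C.i y) (T.v x y))) ↔ _
        rw [hya, hv, ← h j (by omega)]
        constructor
        · rintro (h | h)
          · exact h.2
          · exact absurd h.1 (not_lt.2 hab.le)
        · intro h
          exact Or.inl ⟨hab, h⟩

theorem countable_LT_rel : Countable (Σ n, LT.Relations n) := by
  have : Function.Surjective (fun k : ℕ => (⟨ar k, TRel.R k⟩ : Σ n, LT.Relations n)) := by
    rintro ⟨n, r⟩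
    cases r with
    | R k => exact ⟨k, rfl⟩
  exact this.countable

theorem countable_LP_rel : Countable (Σ n, LP.Relations n) := by
  have : Function.Surjective (fun _ : Unit => (⟨1, PRel.U⟩ : Σ n, LP.Relations n)) := by
    rintro ⟨n, r⟩
    cases r with
    | U => exact ⟨(), rfl⟩
  exact this.countable

theorem countable_LT : Countable LT.Symbols := by
  haveI := countable_LT_rel
  haveI : Countable (Σ n, LT.Functions n) := by
    haveI : IsEmpty (Σ n, LT.Functions n) := ⟨fun x => isEmptyElim x.2⟩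
    infer_instance
  exact instCountableSum

theorem countable_sum : Countable (LT.sum LP).Symbols := by
  have h1 := countable_LT_rel
  have h2 := countable_LP_rel
  haveI : Countable (Σ n, (LT.sum LP).Functions n) := by
    haveI : IsEmpty (Σ n, (LT.sum LP).Functions n) := ⟨fun x => isEmptyElim x.2⟩
    infer_instance
  haveI : Countable (Σ n, (LT.sum LP).Relations n) := by
    have : Function.Surjective (fun c : (Σ n, LT.Relations n) ⊕ (Σ n, LP.Relations n) =>
        (Sum.elim (fun a => ⟨a.1, Sum.inl a.2⟩) (fun a => ⟨a.1, Sum.inr a.2⟩) c :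
          Σ n, (LT.sum LP).Relations n)) := by
      rintro ⟨n, r | r⟩
      · exact ⟨Sum.inl ⟨n, r⟩, rfl⟩
      · exact ⟨Sum.inr ⟨n, r⟩, rfl⟩
    exact this.countable
  exact instCountableSum

theorem not_omegaCategorical [Countable Q] [Infinite Q] :
    ¬ @OmegaCategorical (LT.sum LP) Q C.str := by
  let _ := C.str
  haveI := countable_sum
  choose R hR hRB using (Df_B (C := C))
  choose φ hφ using hR
  apply not_categorical Q φ
  intro s k
  obtain ⟨x, hx, y, hy, hxy, h⟩ := pattern (C := C) k s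
  refine ⟨fun e => cond e y x, fun j hj => ?_⟩
  rw [hφ, hRB j _ hx hy hxy.ne]
  exact h j hj

end Cut

namespace Model

/-- Index set. -/
def I : Type := ℚ ⊕ₗ ℚ

instance : LinearOrder I := inferInstanceAs (LinearOrder (ℚ ⊕ₗ ℚ))

instance : Countable I := inferInstanceAs (Countable (ℚ ⊕ ℚ))

def il (q : ℚ) : I := (Sum.inlₗ q : ℚ ⊕ₗ ℚ)

def ir (q : ℚ) : I := (Sum.inrₗ q : ℚ ⊕ₗ ℚ)

theorem il_lt_il (p q : ℚ) : il p < il q ↔ p < q := Sum.Lex.inl_lt_inl_iff

theorem ir_lt_ir (p q : ℚ) : ir p < ir q ↔ p < q := Sum.Lex.inr_lt_inr_iff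

theorem il_lt_ir (p q : ℚ) : il p < ir q := Sum.Lex.inl_lt_inr _ _

theorem cases_I (i : I) : (∃ q, i = il q) ∨ (∃ q, i = ir q) := by
  rcases h : (ofLex (i : ℚ ⊕ₗ ℚ)) with q | q
  · left; exact ⟨q, h⟩
  · right; exact ⟨q, h⟩

theorem lt_il {i : I} {q : ℚ} (h : i < il q) : ∃ p, i = il p ∧ p < q := by
  rcases cases_I i with ⟨p, rfl⟩ | ⟨p, rfl⟩
  · exact ⟨p, rfl, (il_lt_il _ _).1 h⟩
  · exact absurd h (il_lt_ir _ _).le.not_gt

theorem il_inj {p q : ℚ} (h : il p = il q) : p = q := by
  rcases lt_trichotomy p q with h1 | h1 | h1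
  · exact absurd h ((il_lt_il _ _).2 h1).ne
  · exact h1
  · exact absurd h ((il_lt_il _ _).2 h1).ne'

theorem il_ne_ir (p q : ℚ) : il p ≠ ir q := (il_lt_ir p q).ne

/-- The underlying linear order. -/
def A : Type := Lex (I →₀ ℚ)

noncomputable instance : LinearOrder A := inferInstanceAs (LinearOrder (Lex (I →₀ ℚ)))

instance : Countable A := inferInstanceAs (Countable (I →₀ ℚ))

/-- Coordinates. -/
def co (x : A) (i : I) : ℚ := (ofLex (x : Lex (I →₀ ℚ))) i

theorem lt_iff (x y : A) : x < y ↔ ∃ i, (∀ j < i, co x j = co y j) ∧ co x i < co y i :=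
  Finsupp.Lex.lt_iff

theorem co_inj {x y : A} (h : ∀ i, co x i = co y i) : x = y :=
  (Finsupp.ext h : (ofLex (x : Lex (I →₀ ℚ))) = (ofLex (y : Lex (I →₀ ℚ))))

/-- Update one coordinate. -/
noncomputable def upd (x : A) (i : I) (q : ℚ) : A :=
  (toLex ((ofLex (x : Lex (I →₀ ℚ))).update i q) : Lex (I →₀ ℚ))

theorem co_upd_self (x : A) (i : I) (q : ℚ) : co (upd x i q) i = q := by
  change ((ofLex (x : Lex (I →₀ ℚ))).update i q) i = q
  simp

theorem co_upd_of_ne (x : A) {i j : I} (q : ℚ) (h : j ≠ i) : co (upd x i q) j = co x j := by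
  classical
  change ((ofLex (x : Lex (I →₀ ℚ))).update i q) j = (ofLex (x : Lex (I →₀ ℚ))) j
  simp [Finsupp.update_apply, h]

/-- The zero element. -/
def z0 : A := (toLex (0 : I →₀ ℚ) : Lex (I →₀ ℚ))

theorem co_z0 (i : I) : co z0 i = 0 := rfl

/-- `i` is the least index of difference. -/
def D (x y : A) (i : I) : Prop := (∀ j < i, co x j = co y j) ∧ co x i ≠ co y i

theorem D_exists {x y : A} (h : x ≠ y) : ∃ i, D x y i := by
  rcases lt_or_gt_of_ne h with h | h
  · obtain ⟨i, h1, h2⟩ := (lt_iff _ _).1 h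
    exact ⟨i, h1, h2.ne⟩
  · obtain ⟨i, h1, h2⟩ := (lt_iff _ _).1 h
    exact ⟨i, fun j hj => (h1 j hj).symm, h2.ne'⟩

theorem D_unique {x y : A} {i j : I} (hi : D x y i) (hj : D x y j) : i = j := by
  rcases lt_trichotomy i j with h | h | h
  · exact absurd (hj.1 i h) hi.2
  · exact h
  · exact absurd (hi.1 j h) hj.2

theorem D_symm {x y : A} {i : I} (h : D x y i) : D y x i :=
  ⟨fun j hj => (h.1 j hj).symm, h.2.symm⟩

theorem D_lt {x y : A} {i : I} (h : D x y i) : x < y ↔ co x i < co y i := by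
  constructor
  · intro hxy
    obtain ⟨j, h1, h2⟩ := (lt_iff _ _).1 hxy
    have : j = i := D_unique ⟨h1, h2.ne⟩ h
    rwa [this] at h2
  · intro h2
    exact (lt_iff _ _).2 ⟨i, h.1, h2⟩

theorem D_ne {x y : A} {i : I} (h : D x y i) : x ≠ y := fun e => h.2 (by rw [e])

open Classical in
/-- The least index of difference. -/
noncomputable def d (x y : A) : I := if h : ∃ i, D x y i then h.choose else il 0

theorem d_eq {x y : A} {i : I} (h : D x y i) : d x y = i := by
  have h' : ∃ i, D x y i := ⟨i, h⟩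
  unfold d
  rw [dif_pos h']
  exact D_unique h'.choose_spec h

theorem D_d {x y : A} (h : x ≠ y) : D x y (d x y) := by
  obtain ⟨i, hi⟩ := D_exists h
  rw [d_eq hi]
  exact hi

theorem d_symm (x y : A) : d x y = d y x := by
  by_cases h : ∃ i, D x y i
  · obtain ⟨i, hi⟩ := h
    rw [d_eq hi, d_eq (D_symm hi)]
  · have h' : ¬ ∃ i, D y x i := fun ⟨i, hi⟩ => h ⟨i, D_symm hi⟩
    unfold d
    rw [dif_neg h, dif_neg h']

theorem d_cut {x y z : A} (h1 : x < y) (h2 : y < z) : d x z = min (d x y) (d y z) := by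
  have e1 := D_d h1.ne
  have e2 := D_d h2.ne
  have f1 := (D_lt e1).1 h1
  have f2 := (D_lt e2).1 h2
  apply d_eq
  rcases lt_trichotomy (d x y) (d y z) with h | h | h
  · rw [min_eq_left h.le]
    refine ⟨fun j hj => (e1.1 j hj).trans (e2.1 j (hj.trans h)), ?_⟩
    rw [← e2.1 _ h]
    exact f1.ne
  · rw [← h, min_self]
    rw [← h] at f2 e2
    exact ⟨fun j hj => (e1.1 j hj).trans (e2.1 j hj), (f1.trans f2).ne⟩
  · rw [min_eq_right h.le]
    refine ⟨fun j hj => (e1.1 j (hj.trans h)).trans (e2.1 j hj), ?_⟩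
    rw [e1.1 _ h]
    exact f2.ne

/-- The cut. -/
def Lead (x : A) (q : ℚ) : Prop := (∀ j < il q, co x j = 0) ∧ co x (il q) < 0

def U : Set A := {x | ∃ q, Lead x q}

theorem Lead_unique {x : A} {p q : ℚ} (hp : Lead x p) (hq : Lead x q) : p = q := by
  rcases lt_trichotomy p q with h | h | h
  · exact absurd (hq.1 (il p) ((il_lt_il _ _).2 h)) hp.2.ne
  · exact h
  · exact absurd (hp.1 (il q) ((il_lt_il _ _).2 h)) hq.2.ne

theorem U_lower (x : A) (hx : x ∈ U) (y : A) (hy : y < x) : y ∈ U := by
  obtain ⟨q, h1, h2⟩ := hx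
  obtain ⟨e, h3, h4⟩ := (lt_iff _ _).1 hy
  rcases lt_trichotomy e (il q) with h | h | h
  · obtain ⟨p, rfl, hp⟩ := lt_il h
    refine ⟨p, fun j hj => (h3 j hj).trans (h1 j (hj.trans h)), ?_⟩
    rw [h1 _ h] at h4
    exact h4
  · subst h
    exact ⟨q, fun j hj => (h3 j hj).trans (h1 j hj), h4.trans h2⟩
  · refine ⟨q, fun j hj => (h3 j (hj.trans h)).trans (h1 j hj), ?_⟩
    rw [h3 _ h]
    exact h2

theorem U_congr {x y : A} (h : ∀ q, co x (il q) = co y (il q)) : x ∈ U ↔ y ∈ U := by
  have key : ∀ x y : A, (∀ q, co x (il q) = co y (il q)) → x ∈ U → y ∈ U := by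
    rintro x y h ⟨q, h1, h2⟩
    refine ⟨q, fun j hj => ?_, ?_⟩
    · obtain ⟨p, rfl, hp⟩ := lt_il hj
      rw [← h]
      exact h1 _ hj
    · rw [← h]; exact h2
  exact ⟨key x y h, key y x (fun q => (h q).symm)⟩

theorem z0_notMem : z0 ∉ U := by
  rintro ⟨q, -, h⟩
  rw [co_z0] at h
  exact lt_irrefl _ h

theorem upd_mem (q : ℚ) : Lead (upd z0 (il q) (-1)) q := by
  refine ⟨fun j hj => ?_, ?_⟩
  · rw [co_upd_of_ne _ _ hj.ne, co_z0]
  · rw [co_upd_self]; norm_num

theorem lt_upd (x : A) (i : I) (q : ℚ) : x < upd x i q ↔ co x i < q := by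
  constructor
  · intro h
    obtain ⟨j, h1, h2⟩ := (lt_iff _ _).1 h
    rcases eq_or_ne j i with rfl | hji
    · rwa [co_upd_self] at h2
    · rw [co_upd_of_ne _ _ hji] at h2
      exact absurd h2 (lt_irrefl _)
  · intro h
    refine (lt_iff _ _).2 ⟨i, fun j hj => (co_upd_of_ne _ _ hj.ne).symm, ?_⟩
    rwa [co_upd_self]

theorem upd_lt (x : A) (i : I) (q : ℚ) : upd x i q < x ↔ q < co x i := by
  constructor
  · intro h
    obtain ⟨j, h1, h2⟩ := (lt_iff _ _).1 h
    rcases eq_or_ne j i with rfl | hji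
    · rwa [co_upd_self] at h2
    · rw [co_upd_of_ne _ _ hji] at h2
      exact absurd h2 (lt_irrefl _)
  · intro h
    refine (lt_iff _ _).2 ⟨i, fun j hj => (co_upd_of_ne _ _ hj.ne), ?_⟩
    rwa [co_upd_self]

theorem up (x : A) : ∃ y, x < y ∧ (x ∈ U ↔ y ∈ U) := by
  refine ⟨upd x (ir 0) (co x (ir 0) + 1), (lt_upd _ _ _).2 (by linarith), U_congr fun q => ?_⟩
  rw [co_upd_of_ne _ _ (il_ne_ir _ _)]

theorem down (x : A) : ∃ y, y < x ∧ (x ∈ U ↔ y ∈ U) := by
  refine ⟨upd x (ir 0) (co x (ir 0) - 1), (upd_lt _ _ _).2 (by linarith), U_congr fun q => ?_⟩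
  rw [co_upd_of_ne _ _ (il_ne_ir _ _)]

theorem dense (x y : A) (h : x < y) : ∃ z, x < z ∧ z < y := by
  obtain ⟨i, h1, h2⟩ := (lt_iff _ _).1 h
  refine ⟨upd x i ((co x i + co y i) / 2), (lt_upd _ _ _).2 (by linarith), ?_⟩
  refine (lt_iff _ _).2 ⟨i, fun j hj => ?_, ?_⟩
  · rw [co_upd_of_ne _ _ hj.ne]; exact h1 j hj
  · rw [co_upd_self]; linarith

theorem exists_theta : ∃ θ : I ≃o A, (∀ q, θ (il q) ∈ U) ∧ (∀ q, θ (ir q) ∉ U) := by
  haveI : DenselyOrdered ↥U := ⟨fun a b hab => by
    obtain ⟨c, h1, h2⟩ := dense a.1 b.1 hab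
    exact ⟨⟨c, U_lower _ b.2 _ h2⟩, h1, h2⟩⟩
  haveI : NoMinOrder ↥U := ⟨fun a => by
    obtain ⟨c, h1, h2⟩ := down a.1
    exact ⟨⟨c, h2.1 a.2⟩, h1⟩⟩
  haveI : NoMaxOrder ↥U := ⟨fun a => by
    obtain ⟨c, h1, h2⟩ := up a.1
    exact ⟨⟨c, h2.1 a.2⟩, h1⟩⟩
  haveI : Nonempty ↥U := ⟨⟨_, 0, upd_mem 0⟩⟩
  haveI : DenselyOrdered ↥Uᶜ := ⟨fun a b hab => by
    obtain ⟨c, h1, h2⟩ := dense a.1 b.1 hab
    exact ⟨⟨c, fun hc => a.2 (U_lower _ hc _ h1)⟩, h1, h2⟩⟩
  haveI : NoMinOrder ↥Uᶜ := ⟨fun a => by
    obtain ⟨c, h1, h2⟩ := down a.1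
    exact ⟨⟨c, fun hc => a.2 (h2.2 hc)⟩, h1⟩⟩
  haveI : NoMaxOrder ↥Uᶜ := ⟨fun a => by
    obtain ⟨c, h1, h2⟩ := up a.1
    exact ⟨⟨c, fun hc => a.2 (h2.2 hc)⟩, h1⟩⟩
  haveI : Nonempty ↥Uᶜ := ⟨⟨z0, z0_notMem⟩⟩
  obtain ⟨e1⟩ := Order.iso_of_countable_dense ℚ ↥U
  obtain ⟨e2⟩ := Order.iso_of_countable_dense ℚ ↥Uᶜ
  let f : I → A := fun i => Sum.elim (fun q => (e1 q).1) (fun q => (e2 q).1)
    (ofLex (i : ℚ ⊕ₗ ℚ))
  have fl : ∀ q, f (il q) = (e1 q).1 := fun q => rfl
  have fr : ∀ q, f (ir q) = (e2 q).1 := fun q => rfl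
  have hmono : StrictMono f := by
    intro i j hij
    rcases cases_I i with ⟨p, rfl⟩ | ⟨p, rfl⟩ <;> rcases cases_I j with ⟨q, rfl⟩ | ⟨q, rfl⟩
    · rw [fl, fl]
      exact e1.strictMono ((il_lt_il _ _).1 hij)
    · rw [fl, fr]
      by_contra hc
      rcases (not_lt.1 hc).eq_or_lt with h | h
      · exact (e2 q).2 (by rw [h]; exact (e1 p).2)
      · exact (e2 q).2 (U_lower _ (e1 p).2 _ h)
    · exact absurd hij (il_lt_ir _ _).le.not_gt
    · rw [fr, fr]
      exact e2.strictMono ((ir_lt_ir _ _).1 hij)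
  have hsurj : Function.Surjective f := by
    intro x
    by_cases hx : x ∈ U
    · refine ⟨il (e1.symm ⟨x, hx⟩), ?_⟩
      rw [fl, OrderIso.apply_symm_apply]
    · refine ⟨ir (e2.symm ⟨x, hx⟩), ?_⟩
      rw [fr, OrderIso.apply_symm_apply]
  refine ⟨hmono.orderIsoOfSurjective f hsurj, fun q => ?_, fun q => ?_⟩
  · change f (il q) ∈ U
    rw [fl]; exact (e1 q).2
  · change f (ir q) ∉ U
    rw [fr]; exact (e2 q).2

noncomputable def θ : I ≃o A := exists_theta.choose

theorem θl (q : ℚ) : θ (il q) ∈ U := exists_theta.choose_spec.1 q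

theorem θr (q : ℚ) : θ (ir q) ∉ U := exists_theta.choose_spec.2 q

/-- The tower. -/
noncomputable def T : Tower A where
  v x y := θ (d x y)
  symm x y := by rw [d_symm]
  cut x y z h1 h2 := by
    rw [d_cut h1 h2]
    exact θ.monotone.map_min
  ext h L R hLR hsep := by
    classical
    let i : I := θ.symm h
    have hi : θ i = h := θ.apply_symm_apply h
    have hle : ∀ b c, b ≠ c → h ≤ θ (d b c) → ∀ j < i, co b j = co c j := by
      intro b c hbc hh j hj
      apply (D_d hbc).1 j
      rw [← hi, θ.le_iff_le] at hh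
      exact hj.trans_le hh
    rcases (L ∪ R).eq_empty_or_nonempty with h0 | ⟨b0, hb0⟩
    · have hL : L = ∅ := by
        rw [Finset.union_eq_empty] at h0; exact h0.1
      have hR : R = ∅ := by
        rw [Finset.union_eq_empty] at h0; exact h0.2
      subst hL; subst hR
      exact ⟨z0, by simp, by simp⟩
    obtain ⟨q, hq1, hq2⟩ := Order.exists_between_finsets (L.image (fun b => co b i))
      (R.image (fun b => co b i)) (by
        intro l hl r hr
        obtain ⟨b, hb, rfl⟩ := Finset.mem_image.1 hl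
        obtain ⟨c, hc, rfl⟩ := Finset.mem_image.1 hr
        obtain ⟨h1, h2⟩ := hsep b hb c hc
        have h3 := D_d h1.ne
        have h4 : d b c = i := by
          rw [← hi] at h2
          exact θ.injective h2
        rw [h4] at h3
        exact (D_lt h3).1 h1)
    have hagree : ∀ b ∈ L ∪ R, ∀ j < i, co b j = co (upd b0 i q) j := by
      intro b hb j hj
      rw [co_upd_of_ne _ _ hj.ne]
      rcases eq_or_ne b b0 with rfl | hne
      · rfl
      · exact hle b b0 hne (hLR b hb b0 hb0 hne) j hj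
    refine ⟨upd b0 i q, ?_, ?_⟩
    · intro b hb
      have h1 : co b i < q := hq1 _ (Finset.mem_image_of_mem _ hb)
      have h2 : D b (upd b0 i q) i :=
        ⟨hagree b (Finset.mem_union_left _ hb), by rw [co_upd_self]; exact h1.ne⟩
      refine ⟨(D_lt h2).2 (by rw [co_upd_self]; exact h1), ?_⟩
      rw [d_eq h2, hi]
    · intro b hb
      have h1 : q < co b i := hq2 _ (Finset.mem_image_of_mem _ hb)
      have h2 : D (upd b0 i q) b i :=
        ⟨fun j hj => (hagree b (Finset.mem_union_right _ hb) j hj).symm,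
          by rw [co_upd_self]; exact h1.ne⟩
      refine ⟨(D_lt h2).2 (by rw [co_upd_self]; exact h1), ?_⟩
      rw [d_eq h2, hi]

open Classical in
/-- The level of a point of the cut. -/
noncomputable def lev (x : A) : A := if h : ∃ q, Lead x q then θ (il h.choose) else x

theorem lev_eq {x : A} {q : ℚ} (h : Lead x q) : lev x = θ (il q) := by
  have h' : ∃ q, Lead x q := ⟨q, h⟩
  unfold lev
  rw [dif_pos h', Lead_unique h'.choose_spec h]

/-- The cut as a structure. -/
noncomputable def C : Cut T where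
  U := U
  i := lev
  lower := U_lower
  ne := ⟨_, 0, upd_mem 0⟩
  i_mem := by
    rintro x ⟨q, hq⟩
    rw [lev_eq hq]
    exact θl q
  i_spec := by
    rintro x ⟨p, hp⟩
    rw [lev_eq hp]
    have hx0 := hp.2
    refine ⟨upd x (il p) (co x (il p) / 2), ⟨p, fun j hj => ?_, ?_⟩,
      (lt_upd _ _ _).2 (by linarith), ?_⟩
    · rw [co_upd_of_ne _ _ hj.ne]; exact hp.1 j hj
    · rw [co_upd_self]; linarith
    · rintro z ⟨p', hp'⟩ hle
      have hpp : ¬ p' < p := by
        intro h
        have hlt : z < upd x (il p) (co x (il p) / 2) := by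
          refine (lt_iff _ _).2 ⟨il p', fun j hj => ?_, ?_⟩
          · have : j < il p := hj.trans ((il_lt_il _ _).2 h)
            rw [co_upd_of_ne _ _ this.ne, hp'.1 j hj, hp.1 j this]
          · have : il p' < il p := (il_lt_il _ _).2 h
            rw [co_upd_of_ne _ _ this.ne, hp.1 _ this]
            exact hp'.2
        exact absurd hle (not_le.2 hlt)
      have hz0 : ∀ j < il p, co z j = 0 := by
        intro j hj
        apply hp'.1
        rcases (not_lt.1 hpp).eq_or_lt with h | h
        · rw [← h]; exact hj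
        · exact hj.trans ((il_lt_il _ _).2 h)
      have hzp : co x (il p) / 2 ≤ co z (il p) := by
        by_contra hc
        have hlt : z < upd x (il p) (co x (il p) / 2) := by
          refine (lt_iff _ _).2 ⟨il p, fun j hj => ?_, ?_⟩
          · rw [co_upd_of_ne _ _ hj.ne, hz0 j hj, hp.1 j hj]
          · rw [co_upd_self]; exact not_le.1 hc
        exact absurd hle (not_le.2 hlt)
      have hD : D x z (il p) := ⟨fun j hj => by rw [hp.1 j hj, hz0 j hj], by
        intro h
        rw [← h] at hzp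
        linarith⟩
      change θ (d x z) = θ (il p)
      rw [d_eq hD]
  i_surj := by
    intro j hj
    rcases cases_I (θ.symm j) with ⟨q, hq⟩ | ⟨q, hq⟩
    · refine ⟨upd z0 (il q) (-1), ⟨q, upd_mem q⟩, ?_⟩
      rw [lev_eq (upd_mem q), ← hq, OrderIso.apply_symm_apply]
    · exfalso
      apply θr q
      rw [← hq, OrderIso.apply_symm_apply]
      exact hj

instance : Nonempty A := ⟨z0⟩

instance : NoMaxOrder A := ⟨fun a => by
  obtain ⟨b, hb, -⟩ := up a
  exact ⟨b, hb⟩⟩

instance : Infinite A := NoMaxOrder.infinite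

end Model

/-- There are a countably categorical weakly o-minimal structure `M` (in a countable language
with a symbol for the order) and a convex set `U` such that the expansion `(M, U)` is not
countably categorical. -/
theorem result :
    ∃ (L : FirstOrder.Language.{0, 0}) (lt : L.Relations 2) (M : Type) (_ : LinearOrder M)
      (_ : L.Structure M) (U : Set M),
      Countable L.Symbols ∧ Countable M ∧ Infinite M ∧
      (∀ x y : M, Structure.RelMap lt ![x, y] ↔ x < y) ∧
      WeaklyOMinimal L M ∧ OmegaCategorical L M ∧ U.OrdConnected ∧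
      ¬ @OmegaCategorical (L.sum LP) M (expand L U) := by
  refine ⟨LT, TRel.R 0, Model.A, inferInstance, Model.T.str, Model.U, Cut.countable_LT,
    inferInstance, inferInstance, fun x y => Iff.rfl, Model.T.weaklyOMinimal, ?_, ?_,
    Cut.not_omegaCategorical (C := Model.C)⟩
  · let _ := Model.T.str
    exact RN.categorical Model.T.fin_types
  · constructor
    intro x hx y hy z hz
    rcases hz.2.eq_or_lt with h | h
    · rw [h]; exact hy
    · exact Model.U_lower y hy z h

end Pool.Agent.Results.MP_b29b59_lc.ConvexExpansion
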